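import Pool.Agent.Helper82.RD.Defs

/-!
# Project RD, module COR: division with a new direction
-/

set_option autoImplicit false

open Finset MP86d903

namespace Pool.Agent.Helper82.RD

variable {ι V : Type} [DecidableEq ι] [Fintype ι] [Fintype V] [DecidableEq V]
  {vs ng : ι → Finset V} {q : ℕ}

/-- parity of the value at a half-integral point -/
theorem mCOR_par (a : V → ℤ) (Z : Finset V) (ρ : V → Bool) :
    ((∑ i, a i * pt Z ρ i : ℤ) : ZMod 2) = ∑ i ∈ Zᶜ, vv a i := by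
  rw [sum_pt_eq]
  push_cast
  have h2 : (2 : ZMod 2) = 0 := rfl
  rw [h2, zero_mul, zero_add]
  rfl

/-- the rounded inequality holds at even values -/
theorem mCOR_even {b b' k : ℤ} {c : ℕ} (hc : 1 ≤ c) (hb : b' = ⌈(b : ℚ) / c⌉)
    (h : 2 * b ≤ c * (2 * k)) : b' ≤ k := by
  have hc0 : (0 : ℚ) < c := by exact_mod_cast hc
  have h1 : b ≤ c * k := by
    have : (c : ℤ) * (2 * k) = 2 * (c * k) := by ring
    omega
  have h2 : (b : ℚ) ≤ c * k := by exact_mod_cast h1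
  rw [hb, Int.ceil_le, div_le_iff₀ hc0]
  linarith

theorem mCOR {T₀ T₁ : Finset V} {ρ₀ : V → Bool} {w τ r M : ℕ}
    {Λ : Submodule (ZMod 2) (V → ZMod 2)} (hT : T₀ ⊆ T₁)
    (hI : ∀ T : Finset V, T.card ≤ M → (inside vs (Cl vs q T)).card ≤ q)
    (hM : T₁.card + 2 * w + 2 * (τ * r) + 2 * (r * r) + 4 * r ≤ M)
    {a a' : V → ℤ} {b b' : ℤ} {c : ℕ} (hc : 1 ≤ c) (ha : ∀ i, a i = c * a' i)
    (hb : b' = ⌈(b : ℚ) / c⌉)
    (hΛ : Module.finrank (ZMod 2) (Λ ⊔ Submodule.span (ZMod 2) {vv a'} :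
      Submodule (ZMod 2) (V → ZMod 2)) ≤ r)
    (hPMm : ∀ G G' : Finset V, G ⊆ G' → PM vs (Cl vs q G) ≤ PM vs (Cl vs q G'))
    (hNXT : ∀ (G : Finset V) (P : Submodule (ZMod 2) (V → ZMod 2)), T₁ ⊆ G →
      P ≤ Λ ⊔ Submodule.span (ZMod 2) {vv a'} → P ≤ PM vs (Cl vs q G) →
      ∃ (E J : Finset V) (P' : Submodule (ZMod 2) (V → ZMod 2)),
        NX vs q τ r G (Λ ⊔ Submodule.span (ZMod 2) {vv a'}) P E J P')
    (hEXT : ∀ (Z B : Finset V) (ρ : V → Bool), SPa vs q Z → SPb vs Z → (inside vs B).card ≤ q →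
      Valid vs ng ρ Z →
      ∃ σ : V → Bool, (∀ i ∈ Z, σ i = ρ i) ∧ Valid vs ng σ B ∧ Valid vs ng (flip Z σ) B)
    (hH : Hd vs ng q T₀ T₁ ρ₀ w τ r Λ a b)
    (hH' : Hd vs ng q T₀ T₁ ρ₀ w τ r (Λ ⊔ Submodule.span (ZMod 2) {vv a'}) a b) :
    Hd vs ng q T₀ T₁ ρ₀ w τ r Λ a' b' := by
  intro Z ρ hF
  by_contra hcon
  rw [not_le] at hcon
  have hHZ := hH Z ρ hF
  obtain ⟨T, J, P, hZ, hJ, hPΛ, hPPM, hTc, hSPa, hSPb, hval, hρ₀, hev⟩ := hF
  obtain ⟨v, hv⟩ : ∃ v : ℤ, v = ∑ i, a' i * pt Z ρ i := ⟨_, rfl⟩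
  have hav : ∀ (Z : Finset V) (ρ : V → Bool), ∑ i, a i * pt Z ρ i =
      (c : ℤ) * ∑ i, a' i * pt Z ρ i := by
    intro Z ρ
    rw [mul_sum]
    refine sum_congr rfl (fun i _ => ?_)
    rw [ha i]
    ring
  rw [hav, ← hv] at hHZ
  rw [← hv] at hcon
  -- `v` is odd
  have hodd : ¬ Even v := by
    rintro ⟨k, hk⟩
    have hk2 : v = 2 * k := by omega
    rw [hk2] at hHZ
    have := mCOR_even hc hb hHZ
    omega
  -- `vv a'` is new
  have hnew : vv a' ∉ Λ := by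
    intro h
    have h1 := hev _ h
    rw [← mCOR_par a' Z ρ, ← hv, ZMod.intCast_zmod_eq_zero_iff_dvd] at h1
    apply hodd
    rw [even_iff_two_dvd]
    exact_mod_cast h1
  obtain ⟨Λ', hΛ'⟩ : ∃ Λ' : Submodule (ZMod 2) (V → ZMod 2),
      Λ' = Λ ⊔ Submodule.span (ZMod 2) {vv a'} := ⟨_, rfl⟩
  rw [← hΛ'] at hΛ hNXT hH'
  have hle : Λ ≤ Λ' := by
    rw [hΛ']
    exact le_sup_left
  have hmem : vv a' ∈ Λ' := by
    rw [hΛ']
    exact Submodule.mem_sup_right (Submodule.mem_span_singleton_self _)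
  have hfr : Module.finrank (ZMod 2) Λ + 1 ≤ Module.finrank (ZMod 2) Λ' := by
    refine Submodule.finrank_lt_finrank_of_lt (lt_of_le_of_ne hle ?_)
    intro h
    rw [← h] at hmem
    exact hnew hmem
  obtain ⟨E, J', P', hN⟩ := hNXT (T₁ ∪ (T ∪ J)) P subset_union_left (hPΛ.trans hle)
    (hPPM.trans (hPMm _ _ (by
      intro x hx
      simp only [mem_union] at hx ⊢
      tauto)))
  have hass : T₁ ∪ (T ∪ J) ∪ E = T₁ ∪ (T ∪ J ∪ E) := union_assoc _ _ _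
  obtain ⟨Z₁, hZ₁⟩ : ∃ Z₁, Z₁ = Cl vs q (T₁ ∪ (T ∪ J ∪ E)) ∪ J' := ⟨_, rfl⟩
  have hspa := hN.spa
  have hspb := hN.spb
  have hevn := hN.evn
  have hpm := hN.pm
  rw [hass] at hspa hspb hevn hpm
  rw [← hZ₁] at hspa hspb hevn
  obtain ⟨U, hU⟩ : ∃ U, U = T₁ ∪ (T ∪ J ∪ E) ∪ J' := ⟨_, rfl⟩
  obtain ⟨B, hB⟩ : ∃ B, B = Cl vs q U := ⟨_, rfl⟩
  have hZZ₁ : Z ⊆ Z₁ := by
    rw [hZ, hZ₁]
    refine union_subset ?_ ?_
    · refine (Cl_mono ?_).trans subset_union_left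
      intro x hx
      simp only [mem_union] at hx ⊢
      tauto
    · refine Subset.trans ?_ (subset_union_left (s₂ := J'))
      refine Subset.trans ?_ (subset_Cl q _)
      intro x hx
      simp only [mem_union]
      tauto
  have hZ₁B : Z₁ ⊆ B := by
    rw [hZ₁, hB, hU]
    exact union_subset (Cl_mono subset_union_left) (subset_union_right.trans (subset_Cl q _))
  have hP' : Module.finrank (ZMod 2) P' ≤ r := (Submodule.finrank_mono hN.le').trans hΛ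
  have hcrd := hN.crd
  have hjc := hN.jc
  have hTJE : (T ∪ J ∪ E).card ≤
      w + τ * Module.finrank (ZMod 2) P' + 2 * r * Module.finrank (ZMod 2) Λ' := by
    have e1 : (T ∪ J ∪ E).card ≤ T.card + J.card + E.card :=
      (card_union_le _ _).trans (Nat.add_le_add_right (card_union_le _ _) _)
    have e2 : 2 * r * (Module.finrank (ZMod 2) Λ + 1) ≤ 2 * r * Module.finrank (ZMod 2) Λ' :=
      Nat.mul_le_mul_left _ hfr
    rw [mul_add, mul_one] at e2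
    omega
  have hUc : U.card ≤ M := by
    have e1 : U.card ≤ T₁.card + (T ∪ J ∪ E).card + J'.card := by
      rw [hU]
      exact (card_union_le _ _).trans (Nat.add_le_add_right (card_union_le _ _) _)
    have e2 : τ * Module.finrank (ZMod 2) P' ≤ τ * r := Nat.mul_le_mul_left _ hP'
    have e3 : 2 * r * Module.finrank (ZMod 2) Λ' ≤ 2 * (r * r) := by
      rw [mul_assoc]
      exact Nat.mul_le_mul_left _ (Nat.mul_le_mul_left _ hΛ)
    omega
  have hBq : (inside vs B).card ≤ q := by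
    rw [hB]
    exact hI U hUc
  obtain ⟨σ, hσZ, hv1, hv2⟩ := hEXT Z B ρ hSPa hSPb hBq hval
  have h0Z : Cl vs q T₀ ⊆ Z := by
    rw [hZ]
    exact (Cl_mono (hT.trans subset_union_left)).trans subset_union_left
  have key : ∀ κ : V → Bool, Valid vs ng κ B → (∀ i ∈ Z, κ i = ρ i) →
      2 * b' ≤ ∑ i, a' i * pt Z₁ κ i := by
    intro κ hκ hκZ
    have hFm : Fm vs ng q T₀ T₁ ρ₀ w τ r Λ' Z₁ κ := by
      refine ⟨T ∪ J ∪ E, J', P', hZ₁, hjc, hN.le', hpm, hTJE, hspa, hspb,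
        fun c hc => hκ c (hc.trans hZ₁B), fun i hi => ?_, hevn⟩
      rw [hκZ i (h0Z hi)]
      exact hρ₀ i hi
    have h1 := hH' Z₁ κ hFm
    rw [hav] at h1
    have h2 : ((∑ i, a' i * pt Z₁ κ i : ℤ) : ZMod 2) = 0 := by
      rw [mCOR_par]
      exact hevn _ hmem
    rw [ZMod.intCast_zmod_eq_zero_iff_dvd] at h2
    obtain ⟨k, hk⟩ : ∃ k : ℤ, ∑ i, a' i * pt Z₁ κ i = 2 * k := by exact_mod_cast h2
    rw [hk] at h1 ⊢
    have := mCOR_even hc hb h1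
    omega
  have k1 := key σ hv1 hσZ
  have k2 := key (flip Z σ) hv2 (fun i hi => by
    unfold MP86d903.flip
    rw [if_pos hi]
    exact hσZ i hi)
  have k3 : ∑ i, a' i * pt Z₁ σ i + ∑ i, a' i * pt Z₁ (flip Z σ) i = 2 * v := by
    rw [← sum_add_distrib, hv, mul_sum]
    refine sum_congr rfl (fun i _ => ?_)
    rw [← mul_add, pt_add_pt_flip hZZ₁ hσZ i]
    ring
  omega

end Pool.Agent.Helper82.RD
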