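import Pool.Agent.Helper82.RD.Defs

/-!
# Project RD, module BAD: a small set catching all tight families
-/

set_option autoImplicit false

open Finset MP86d903

namespace Pool.Agent.Helper82.RD

variable {ι V : Type} [DecidableEq ι] [Fintype ι] [Fintype V] [DecidableEq V]
  {vs ng : ι → Finset V} {q : ℕ}

theorem mBAD (hGI : GI vs) (h3 : ∀ c, (vs c).card = 3) {A J : Finset V} (hCL : CL vs q A)
    (hJ : Disjoint J A) (hJq : 9 * J.card + 3 ≤ q) :
    ∃ X : Finset V, X.card ≤ 18 * J.card ∧ ∀ J' ⊆ J, SPa vs q (A ∪ J') → Cat vs q (A ∪ J') X := by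
  classical
  set 𝒰 := (univ : Finset (Finset ι)).filter (fun U => U.card ≤ q ∧ (∀ c ∈ U, ¬ vs c ⊆ A) ∧
    gg vs A U ≤ 2 * ((U.biUnion vs ∩ J).card : ℤ)) with h𝒰
  have hne : 𝒰.Nonempty := by
    refine ⟨∅, mem_filter.mpr ⟨mem_univ _, by simp, by simp, ?_⟩⟩
    unfold gg
    simp
  obtain ⟨U, hU, hmax⟩ := exists_max_image 𝒰 card hne
  obtain ⟨-, hUq, hUA, hUg⟩ := mem_filter.mp hU
  have hNJ : ∀ S : Finset ι, ((S.biUnion vs ∩ J).card : ℤ) ≤ J.card := by
    intro S
    exact_mod_cast card_le_card inter_subset_right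
  have hU6 : U.card ≤ 6 * J.card := by
    rcases U.eq_empty_or_nonempty with h | hUne
    · rw [h]
      simp
    · have e1 := hCL.gg3 U hUne hUq hUA
      have e2 := hNJ U
      omega
  refine ⟨U.biUnion vs, ?_, ?_⟩
  · have e1 : (U.biUnion vs).card ≤ U.card * 3 :=
      card_biUnion_le_card_mul _ _ _ (fun c _ => (h3 c).le)
    omega
  · intro J' hJ' hSPa S hS hSq hSc hSg
    have hScA : ∀ c ∈ S, ¬ vs c ⊆ A := fun c hc h => hSc c hc (h.trans subset_union_left)
    have hJ'A : Disjoint J' A := hJ.mono_left hJ'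
    have hadd := hGI.add A J' hJ'A S
    have hlow := hGI.low J' S
    have hNJ' : ((S.biUnion vs ∩ J').card : ℤ) ≤ J.card := by
      exact_mod_cast (card_le_card inter_subset_right).trans (card_le_card hJ')
    have hgA := hCL.gg3 S hS hSq hScA
    have hS3 : S.card ≤ 3 * J.card + 2 := by omega
    obtain ⟨S₀, hS₀⟩ : ∃ S₀, S₀ = S \ U := ⟨_, rfl⟩
    obtain ⟨S₁, hS₁⟩ : ∃ S₁, S₁ = S ∩ U := ⟨_, rfl⟩
    have hUS : U ∪ S = U ∪ S₀ := by
      rw [hS₀, union_sdiff_self_eq_union]
    have hdis : Disjoint U S₀ := by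
      rw [hS₀]
      exact disjoint_sdiff
    have hUSq : (U ∪ S).card ≤ q := by
      have := card_union_le U S
      omega
    have huni := hGI.uni A U S₀ hdis
    rw [← hUS] at huni
    -- the part of `J`
    have hN1 : ((U ∪ S).biUnion vs ∩ J).card =
        (U.biUnion vs ∩ J).card + ((S₀.biUnion vs \ U.biUnion vs) ∩ J).card := by
      rw [← card_union_of_disjoint]
      · congr 1
        rw [hUS, union_biUnion]
        ext y
        simp only [mem_inter, mem_union, mem_sdiff]
        tauto
      · rw [Finset.disjoint_left]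
        intro y h1 h2
        simp only [mem_inter, mem_sdiff] at h1 h2
        exact h2.1.2 h1.1
    obtain ⟨W, hW⟩ : ∃ W, W = S₀.biUnion vs \ (A ∪ J ∪ U.biUnion vs) := ⟨_, rfl⟩
    have hN2 : (S₀.biUnion vs \ (A ∪ U.biUnion vs)).card =
        W.card + ((S₀.biUnion vs \ U.biUnion vs) ∩ J).card := by
      rw [hW, ← card_union_of_disjoint]
      · congr 1
        ext y
        have hy : y ∈ J → y ∉ A := fun h => Finset.disjoint_left.mp hJ h
        simp only [mem_inter, mem_union, mem_sdiff, not_or]
        tauto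
      · rw [Finset.disjoint_left]
        intro y h1 h2
        simp only [mem_inter, mem_sdiff, mem_union, not_or] at h1 h2
        exact h1.2.1.2 h2.2
    have hW1 : W.card + (S₁.biUnion vs \ (A ∪ J')).card ≤ (S.biUnion vs \ (A ∪ J')).card := by
      rw [← card_union_of_disjoint]
      · apply card_le_card
        intro y hy
        rcases mem_union.mp hy with hy | hy
        · rw [hW] at hy
          obtain ⟨h1, h2⟩ := mem_sdiff.mp hy
          refine mem_sdiff.mpr ⟨?_, fun h4 => h2 ?_⟩
          · refine biUnion_subset_biUnion_of_subset_left _ ?_ h1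
            rw [hS₀]
            exact sdiff_subset
          · rcases mem_union.mp h4 with h5 | h5
            · exact mem_union_left _ (mem_union_left _ h5)
            · exact mem_union_left _ (mem_union_right _ (hJ' h5))
        · obtain ⟨h1, h2⟩ := mem_sdiff.mp hy
          refine mem_sdiff.mpr ⟨?_, h2⟩
          refine biUnion_subset_biUnion_of_subset_left _ ?_ h1
          rw [hS₁]
          exact inter_subset_left
      · rw [Finset.disjoint_left]
        intro y h1 h2
        rw [hW] at h1
        apply (mem_sdiff.mp h1).2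
        refine mem_union_right _ ?_
        refine biUnion_subset_biUnion_of_subset_left _ ?_ (mem_sdiff.mp h2).1
        rw [hS₁]
        exact inter_subset_right
    have hsum1 : ∑ c ∈ S₀, ((vs c \ A).card : ℤ) =
        ∑ c ∈ S₀, ((vs c \ (A ∪ J')).card : ℤ) + ∑ c ∈ S₀, ((vs c ∩ J').card : ℤ) := by
      rw [← sum_add_distrib]
      refine sum_congr rfl (fun c _ => ?_)
      have : (vs c \ A).card = (vs c \ (A ∪ J')).card + (vs c ∩ J').card := by
        rw [← card_union_of_disjoint]
        · congr 1
          ext y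
          have hy : y ∈ J' → y ∉ A := fun h => Finset.disjoint_left.mp hJ'A h
          simp only [mem_inter, mem_union, mem_sdiff, not_or]
          tauto
        · rw [Finset.disjoint_left]
          intro y h1 h2
          simp only [mem_inter, mem_sdiff, mem_union, not_or] at h1 h2
          exact h1.2.2 h2.2
      exact_mod_cast this
    have hsum2 : ∑ c ∈ S, ((vs c \ (A ∪ J')).card : ℤ) =
        ∑ c ∈ S₁, ((vs c \ (A ∪ J')).card : ℤ) + ∑ c ∈ S₀, ((vs c \ (A ∪ J')).card : ℤ) := by
      rw [hS₀, hS₁, sum_inter_add_sum_sdiff]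
    have hsn : 0 ≤ ∑ c ∈ S₀, ((vs c ∩ J').card : ℤ) :=
      Finset.sum_nonneg (fun c _ => Nat.cast_nonneg _)
    -- the main inequality
    have hcase : 1 ≤ gg vs (A ∪ J') S₁ + ∑ c ∈ S₀, ((vs c ∩ J').card : ℤ) := by
      rcases S₁.eq_empty_or_nonempty with h | h
      · have h0 : S₀ = S := by
          rw [hS₀]
          rw [hS₁] at h
          exact sdiff_eq_self_iff_disjoint.mpr (disjoint_iff_inter_eq_empty.mpr h)
        have hg0 : gg vs (A ∪ J') S₁ = 0 := by
          rw [h]
          unfold gg
          simp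
        rw [hg0, h0, zero_add]
        by_contra hcon
        have e1 := hCL.gg2 S hS hSq hScA
        have e2 : (0 : ℤ) ≤ ((S.biUnion vs ∩ J').card : ℤ) := Nat.cast_nonneg _
        rw [h0] at hsn
        omega
      · have e1 := hSPa S₁ h (by
          refine (card_le_card ?_).trans hSq
          rw [hS₁]
          exact inter_subset_left) (fun c hc => hSc c (by
            rw [hS₁] at hc
            exact (mem_inter.mp hc).1))
        omega
    have hmem : U ∪ S ∈ 𝒰 := by
      refine mem_filter.mpr ⟨mem_univ _, hUSq, ?_, ?_⟩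
      · intro c hc
        rcases mem_union.mp hc with hc | hc
        · exact hUA c hc
        · exact hScA c hc
      · have c1 : (((U ∪ S).biUnion vs ∩ J).card : ℤ) =
          (U.biUnion vs ∩ J).card + ((S₀.biUnion vs \ U.biUnion vs) ∩ J).card := by
          exact_mod_cast hN1
        have c2 : ((S₀.biUnion vs \ (A ∪ U.biUnion vs)).card : ℤ) =
          W.card + ((S₀.biUnion vs \ U.biUnion vs) ∩ J).card := by exact_mod_cast hN2
        have c3 : (W.card : ℤ) + (S₁.biUnion vs \ (A ∪ J')).card ≤
          (S.biUnion vs \ (A ∪ J')).card := by exact_mod_cast hW1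
        have c4 : gg vs (A ∪ J') S = 2 * ((S.biUnion vs \ (A ∪ J')).card : ℤ) -
          ∑ c ∈ S, ((vs c \ (A ∪ J')).card : ℤ) := rfl
        have c5 : gg vs (A ∪ J') S₁ = 2 * ((S₁.biUnion vs \ (A ∪ J')).card : ℤ) -
          ∑ c ∈ S₁, ((vs c \ (A ∪ J')).card : ℤ) := rfl
        rw [huni, c1]
        omega
    have h1 := hmax _ hmem
    have h2 : U = U ∪ S := eq_of_subset_of_card_le subset_union_left h1
    have h4 : S ⊆ U := by
      rw [h2]
      exact subset_union_right
    exact biUnion_subset_biUnion_of_subset_left _ h4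

end Pool.Agent.Helper82.RD
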