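import Pool.Agent.Helper82.RD.Defs

/-!
# Project RD, module GRS: one step of the greedy construction
-/

set_option autoImplicit false

open Finset MP86d903

namespace Pool.Agent.Helper82.RD

variable {ι V : Type} [DecidableEq ι] [Fintype ι] [Fintype V] [DecidableEq V]
  {vs ng : ι → Finset V} {q : ℕ}

theorem mGRS (h3 : ∀ c, (vs c).card = 3) {A : Finset V} (hCL : CL vs q A) (hAP : AP vs A)
    (hBAD : ∀ J : Finset V, Disjoint J A → 9 * J.card + 3 ≤ q →
      ∃ X : Finset V, X.card ≤ 18 * J.card ∧ ∀ J' ⊆ J, SPa vs q (A ∪ J') → Cat vs q (A ∪ J') X)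
    (hADU : ∀ J e : Finset V, UA vs A J → IsAt vs A e →
      (∀ c, Disjoint (vs c) J ∨ Disjoint (vs c) e) → UA vs A (J ∪ e))
    (hADS : ∀ J e X : Finset V, UA vs A J → SPa vs q (A ∪ J) → IsAt vs A e → Disjoint e J →
      Disjoint e X → Cat vs q (A ∪ J) X → 3 * J.card + 10 ≤ q → SPa vs q (A ∪ (J ∪ e)))
    (hCNT : (∀ Y : Finset V,
        (univ.filter (fun x => x ∉ A ∧ ¬ Disjoint (att vs A x) Y)).card ≤ 2 * Y.card) ∧
      ∀ (D : ℕ) (J : Finset V), (∀ x ∈ J, (univ.filter (fun c => x ∈ vs c)).card ≤ D) →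
        ((univ.filter (fun c => ¬ Disjoint (vs c) J)).biUnion vs).card ≤ 3 * (D * J.card))
    {D r τ : ℕ} (hD : ∀ x, x ∉ A → (univ.filter (fun c => x ∈ vs c)).card ≤ D)
    (hq : 18 * r + 10 ≤ q) (hτ : (76 + 12 * D) * r ≤ τ) {E : Finset (Finset V)}
    (hE : GF vs q A E) (hEr : E.card + 1 ≤ r) {b : V → ZMod 2} (hb : τ < (OO vs A b).card) :
    ∃ x, x ∉ A ∧ bs vs A b x ≠ 0 ∧ att vs A x ∉ E ∧ GF vs q A (insert (att vs A x) E) := by
  obtain ⟨J, hJ⟩ : ∃ J, J = E.biUnion id := ⟨_, rfl⟩
  have hUA : UA vs A J := by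
    rw [hJ]
    exact (hE.sub E (Subset.refl E)).1
  have hcard2 : ∀ e, IsAt vs A e → e.card ≤ 2 := by
    rintro e (⟨x, -, rfl, -⟩ | ⟨c, hc, rfl⟩)
    · rw [card_singleton]
      omega
    · exact hc.le
  have hJc : J.card ≤ E.card * 2 := by
    rw [hJ]
    exact card_biUnion_le_card_mul _ _ _ (fun e he => hcard2 e (hE.ats e he))
  obtain ⟨X, hXc, hX⟩ := hBAD J hUA.disj (by omega)
  obtain ⟨Y₂, hY₂⟩ : ∃ Y₂, Y₂ = (univ.filter (fun c => ¬ Disjoint (vs c) J)).biUnion vs :=
    ⟨_, rfl⟩
  have hY₂c : Y₂.card ≤ 3 * (D * J.card) := by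
    rw [hY₂]
    exact hCNT.2 D J (fun x hx => hD x (Finset.disjoint_left.mp hUA.disj hx))
  obtain ⟨Y, hY⟩ : ∃ Y, Y = J ∪ X ∪ Y₂ := ⟨_, rfl⟩
  have hYc : Y.card ≤ (19 + 3 * D) * J.card := by
    have e1 : Y.card ≤ J.card + X.card + Y₂.card := by
      rw [hY]
      exact (card_union_le _ _).trans (Nat.add_le_add_right (card_union_le _ _) _)
    have e2 : (19 + 3 * D) * J.card = 19 * J.card + 3 * (D * J.card) := by ring
    omega
  have hlt : (univ.filter (fun x => x ∉ A ∧ ¬ Disjoint (att vs A x) Y)).card <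
      (OO vs A b).card := by
    refine lt_of_le_of_lt ((hCNT.1 Y).trans ?_) hb
    refine le_trans ?_ hτ
    have e1 : (19 + 3 * D) * J.card ≤ (19 + 3 * D) * (E.card * 2) := Nat.mul_le_mul_left _ hJc
    have e2 : (19 + 3 * D) * (E.card * 2) ≤ (19 + 3 * D) * (r * 2) :=
      Nat.mul_le_mul_left _ (by omega)
    have e3 : 2 * ((19 + 3 * D) * (r * 2)) = (76 + 12 * D) * r := by ring
    omega
  obtain ⟨x, hxO, hxn⟩ := exists_mem_notMem_of_card_lt_card hlt
  have hxA : x ∉ A := (mem_filter.mp hxO).2.1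
  have hxb : bs vs A b x ≠ 0 := (mem_filter.mp hxO).2.2
  have hdis : Disjoint (att vs A x) Y := by
    by_contra h
    exact hxn (mem_filter.mpr ⟨mem_univ _, hxA, h⟩)
  have hxx : x ∈ att vs A x := hAP.mem x hxA
  have hat : IsAt vs A (att vs A x) := hAP.isa x hxA
  refine ⟨x, hxA, hxb, ?_, ?_, ?_⟩
  · intro hmem
    have h1 : x ∈ Y := by
      rw [hY, hJ]
      refine mem_union_left _ (mem_union_left _ ?_)
      rw [mem_biUnion]
      exact ⟨_, hmem, hxx⟩
    exact Finset.disjoint_left.mp hdis hxx h1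
  · intro e he
    rcases mem_insert.mp he with rfl | he
    · exact hat
    · exact hE.ats e he
  · intro I hI
    by_cases hxI : att vs A x ∈ I
    · obtain ⟨I', hI'⟩ : ∃ I', I' = I.erase (att vs A x) := ⟨_, rfl⟩
      have hI'E : I' ⊆ E := by
        intro e he
        rw [hI', mem_erase] at he
        rcases mem_insert.mp (hI he.2) with h | h
        · exact absurd h he.1
        · exact h
      have hIeq : I.biUnion id = I'.biUnion id ∪ att vs A x := by
        rw [← insert_erase hxI, ← hI', biUnion_insert, union_comm]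
        rfl
      obtain ⟨h1, h2⟩ := hE.sub I' hI'E
      have hsub : I'.biUnion id ⊆ J := by
        rw [hJ]
        exact biUnion_subset_biUnion_of_subset_left _ hI'E
      rw [hIeq]
      constructor
      · refine hADU _ _ h1 hat ?_
        intro c
        by_cases hc : Disjoint (vs c) (I'.biUnion id)
        · exact Or.inl hc
        · right
          have hcJ : ¬ Disjoint (vs c) J := fun h => hc (h.mono_right hsub)
          have h4 : vs c ⊆ Y := by
            rw [hY, hY₂]
            refine Subset.trans ?_ subset_union_right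
            exact subset_biUnion_of_mem vs (mem_filter.mpr ⟨mem_univ c, hcJ⟩)
          exact (hdis.mono_right h4).symm
      · have hJY : J ⊆ Y := by
          rw [hY]
          exact subset_union_left.trans subset_union_left
        have hXY : X ⊆ Y := by
          rw [hY]
          exact subset_union_right.trans subset_union_left
        refine hADS _ _ X h1 h2 hat (hdis.mono_right (hsub.trans hJY)) (hdis.mono_right hXY)
          (hX _ hsub h2) ?_
        have h5 := card_le_card hsub
        omega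
    · have hIE : I ⊆ E := by
        intro e he
        rcases mem_insert.mp (hI he) with h | h
        · rw [h] at he
          exact absurd he hxI
        · exact h
      exact hE.sub I hIE

end Pool.Agent.Helper82.RD
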