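import Pool.Agent.Helper12.RD.M_GRE
import Pool.Agent.Helper16.RD.M_CNT
import Pool.Agent.Helper29.RD.M_PER
import Pool.Agent.Helper38.RD.M_GRL
import Pool.Agent.Helper40.RD.M_ABS
import Pool.Agent.Helper41.RD.M_ADU
import Pool.Agent.Helper42.RD.M_ATP
import Pool.Agent.Helper6.RD.M_SPB
import Pool.Agent.Helper64.RD.M_GGI
import Pool.Agent.Helper80.RD.M_CLB
import Pool.Agent.Helper84.RD.M_SUM
import Pool.Agent.Helper82.RD.M_BAD
import Pool.Agent.Helper82.RD.M_ADS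
import Pool.Agent.Helper82.RD.M_GRS

/-!
# Project RD: good enlargements
-/

set_option autoImplicit false

open Finset MP86d903

namespace Pool.Agent.Helper82.RD

variable {ι V : Type} [DecidableEq ι] [Fintype ι] [Fintype V] [DecidableEq V]
  {vs : ι → Finset V} {q : ℕ}

theorem per (h3 : ∀ c, (vs c).card = 3) (hq : 2 ≤ q) (G G' : Finset V) (h : G ⊆ G')
    (b : V → ZMod 2) (hb : ∀ x, x ∉ Cl vs q G' → bs vs (Cl vs q G) b x = 0) :
    b ∈ PM vs (Cl vs q G') :=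
  mPER (mCLB h3 hq (closed_Cl q G)) (mCLB h3 hq (closed_Cl q G'))
    (mATP (mCLB h3 hq (closed_Cl q G))) (mATP (mCLB h3 hq (closed_Cl q G'))) (Cl_mono h) hb

theorem pmm (h3 : ∀ c, (vs c).card = 3) (hq : 2 ≤ q) (G G' : Finset V) (h : G ⊆ G') :
    PM vs (Cl vs q G) ≤ PM vs (Cl vs q G') := by
  intro b hb
  refine per h3 hq G G' h b ?_
  intro x hx
  exact mem_PM.1 hb x (fun h1 => hx (Cl_mono h h1))

theorem nxt (h3 : ∀ c, (vs c).card = 3) {D r τ : ℕ} (hq2 : 2 ≤ q) (hq : 18 * r + 10 ≤ q)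
    (hτ : (76 + 12 * D) * r ≤ τ) {T₁ : Finset V}
    (hD : ∀ x, x ∉ T₁ → (univ.filter (fun c => x ∈ vs c)).card ≤ D)
    {Λ : Submodule (ZMod 2) (V → ZMod 2)} (hΛ : Module.finrank (ZMod 2) Λ ≤ r)
    (G : Finset V) (P : Submodule (ZMod 2) (V → ZMod 2)) (hG : T₁ ⊆ G) (hP : P ≤ Λ)
    (hPM : P ≤ PM vs (Cl vs q G)) :
    ∃ (E J : Finset V) (P' : Submodule (ZMod 2) (V → ZMod 2)), NX vs q τ r G Λ P E J P' := by
  obtain ⟨E, P', h1, h2, h4, h5, h6⟩ := mABS (τ := τ) (per h3 hq2) G Λ P hP hPM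
  have hc : CL vs q (Cl vs q (G ∪ E)) := mCLB h3 hq2 (closed_Cl q (G ∪ E))
  have ha := mATP hc
  have hD' : ∀ x, x ∉ Cl vs q (G ∪ E) → (univ.filter (fun c => x ∈ vs c)).card ≤ D := by
    intro x hx
    refine hD x (fun h => hx ?_)
    exact subset_Cl q _ (mem_union_left _ (hG h))
  obtain ⟨J, hJ1, hJ2, hJ3, hJ4⟩ := mGRE (τ := τ) (r := r) hc ha
    (fun b hb K hK hKa => mSUM ha hb K hK hKa) mGRL
    (fun E' hE hEr b hb => mGRS h3 hc ha (fun J hJ hJq => mBAD mGGI h3 hc hJ hJq)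
      (fun J e hJ he hne => mADU hc hJ he hne)
      (fun J e X hJ hJS he heJ heX hX hJq => mADS mGGI hc hJ hJS he heJ heX hX hJq)
      (mCNT h3 ha) hD' hq hτ hE hEr hb) Λ hΛ h6
  exact ⟨E, J, P', h1, h2, h4, h5, hJ1, hJ3, mSPB hc hJ2, hJ4⟩

end Pool.Agent.Helper82.RD
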