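import Pool.Agent.Helper80.CP.Det

/-!
# Project RD (MP_86d903_lc): rounding directions, definitions

`vs c` is the set of the three variables of the clause `c`, `Closed`, `Cl`, `inside`, `Lit`, `Valid`, `flip`, `pt` are as
in Pool/Agent/Helper80/CP.  All parity statements are in `ZMod 2`.
-/

set_option autoImplicit false

open Finset MP86d903

namespace Pool.Agent.Helper82.RD

section Graph

variable {ι V : Type} [DecidableEq ι] [Fintype V] [DecidableEq V]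

/-- twice the number of the variables of `S` outside `Z` minus the number of incidences outside `Z` -/
def gg (vs : ι → Finset V) (Z : Finset V) (S : Finset ι) : ℤ :=
  2 * ((S.biUnion vs \ Z).card : ℤ) - ∑ c ∈ S, ((vs c \ Z).card : ℤ)

/-- first splitting condition -/
def SPa (vs : ι → Finset V) (q : ℕ) (Z : Finset V) : Prop :=
  ∀ S : Finset ι, S.Nonempty → S.card ≤ q → (∀ c ∈ S, ¬ vs c ⊆ Z) → 1 ≤ gg vs Z S

/-- second splitting condition -/
def SPb (vs : ι → Finset V) (Z : Finset V) : Prop := ∀ c, ¬ vs c ⊆ Z → 2 ≤ (vs c \ Z).card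

/-- `J` is a union of atoms of `A` (a pair atom is the outside part of a clause with exactly two variables
outside `A`), and no other clause contains two variables of `J` -/
structure UA (vs : ι → Finset V) (A J : Finset V) : Prop where
  disj : Disjoint J A
  pair : ∀ c, (vs c \ A).card = 2 → vs c \ A ⊆ J ∨ Disjoint (vs c) J
  three : ∀ c, (vs c \ A).card = 3 → (vs c ∩ J).card ≤ 1

/-- `e` is an atom of `A` -/
def IsAt (vs : ι → Finset V) (A e : Finset V) : Prop :=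
  (∃ x, x ∉ A ∧ e = {x} ∧ ∀ c, (vs c \ A).card = 2 → x ∉ vs c) ∨
    ∃ c, (vs c \ A).card = 2 ∧ e = vs c \ A

open Classical in
/-- the atom of the variable `x` outside `A` -/
noncomputable def att (vs : ι → Finset V) (A : Finset V) (x : V) : Finset V :=
  if h : ∃ c, (vs c \ A).card = 2 ∧ x ∈ vs c then vs h.choose \ A else {x}

/-- parity of `b` on the atom of `x` -/
noncomputable def bs (vs : ι → Finset V) (A : Finset V) (b : V → ZMod 2) (x : V) : ZMod 2 :=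
  ∑ i ∈ att vs A x, b i

/-- the variables whose atom is odd -/
noncomputable def OO (vs : ι → Finset V) (A : Finset V) (b : V → ZMod 2) : Finset V :=
  univ.filter (fun x => x ∉ A ∧ bs vs A b x ≠ 0)

/-- the permanent vectors: even on all atoms -/
noncomputable def PM (vs : ι → Finset V) (A : Finset V) : Submodule (ZMod 2) (V → ZMod 2) where
  carrier := {b | ∀ x, x ∉ A → bs vs A b x = 0}
  zero_mem' := by
    intro x _
    unfold bs
    exact Finset.sum_eq_zero fun i _ => rfl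
  add_mem' := by
    intro a b ha hb x hx
    have h1 : bs vs A (a + b) x = bs vs A a x + bs vs A b x := Finset.sum_add_distrib
    rw [h1, ha x hx, hb x hx, add_zero]
  smul_mem' := by
    intro c a ha x hx
    have h1 : bs vs A (c • a) x = c * bs vs A a x := (Finset.mul_sum _ _ _).symm
    rw [h1, ha x hx, mul_zero]

theorem mem_PM {vs : ι → Finset V} {A : Finset V} {b : V → ZMod 2} :
    b ∈ PM vs A ↔ ∀ x, x ∉ A → bs vs A b x = 0 := Iff.rfl

/-- coefficients modulo 2 -/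
def vv (a : V → ℤ) : V → ZMod 2 := fun i => (a i : ZMod 2)

/-- The states: `Z = Cl (T₁ ∪ T) ∪ J` with a valid assignment, all vectors of `Λ` are even outside `Z`; the vectors of `P ⊆ Λ`
are permanent. -/
def Fm (vs ng : ι → Finset V) (q : ℕ) (T₀ T₁ : Finset V) (ρ₀ : V → Bool) (w τ r : ℕ)
    (Λ : Submodule (ZMod 2) (V → ZMod 2)) (Z : Finset V) (ρ : V → Bool) : Prop :=
  ∃ (T J : Finset V) (P : Submodule (ZMod 2) (V → ZMod 2)),
    Z = Cl vs q (T₁ ∪ T) ∪ J ∧ J.card ≤ 2 * r ∧ P ≤ Λ ∧ P ≤ PM vs (Cl vs q (T₁ ∪ T)) ∧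
    T.card ≤ w + τ * Module.finrank (ZMod 2) P + 2 * r * Module.finrank (ZMod 2) Λ ∧
    SPa vs q Z ∧ SPb vs Z ∧ Valid vs ng ρ Z ∧ (∀ i ∈ Cl vs q T₀, ρ i = ρ₀ i) ∧
    ∀ b ∈ Λ, ∑ i ∈ Zᶜ, b i = 0

/-- the inequality `∑ a i * x i ≥ b` holds at all states -/
def Hd (vs ng : ι → Finset V) (q : ℕ) (T₀ T₁ : Finset V) (ρ₀ : V → Bool) (w τ r : ℕ)
    (Λ : Submodule (ZMod 2) (V → ZMod 2)) (a : V → ℤ) (b : ℤ) : Prop :=
  ∀ Z ρ, Fm vs ng q T₀ T₁ ρ₀ w τ r Λ Z ρ → 2 * b ≤ ∑ i, a i * pt Z ρ i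

/-- consequences of `Closed vs q A` for `3`-element sets (module CLB) -/
structure CL (vs : ι → Finset V) (q : ℕ) (A : Finset V) : Prop where
  le3 : ∀ c, (vs c \ A).card ≤ 3
  two : ∀ c, ¬ vs c ⊆ A → 2 ≤ (vs c \ A).card
  gg2 : ∀ S : Finset ι, S.Nonempty → S.card ≤ q → (∀ c ∈ S, ¬ vs c ⊆ A) → 2 ≤ gg vs A S
  gg3 : ∀ S : Finset ι, S.Nonempty → S.card ≤ q → (∀ c ∈ S, ¬ vs c ⊆ A) →
    (S.card : ℤ) < 3 * gg vs A S
  int : ∀ c c', c ≠ c' → ¬ vs c ⊆ A → ¬ vs c' ⊆ A →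
    ((vs c ∩ vs c') \ A).card + 4 ≤ (vs c \ A).card + (vs c' \ A).card

/-- elementary identities for `gg` (module GGI) -/
structure GI (vs : ι → Finset V) : Prop where
  add : ∀ Z J : Finset V, Disjoint J Z → ∀ S : Finset ι, gg vs (Z ∪ J) S =
    gg vs Z S - 2 * ((S.biUnion vs ∩ J).card : ℤ) + ∑ c ∈ S, ((vs c ∩ J).card : ℤ)
  low : ∀ (J : Finset V) (S : Finset ι),
    ((S.biUnion vs ∩ J).card : ℤ) ≤ ∑ c ∈ S, ((vs c ∩ J).card : ℤ)
  uni : ∀ (Z : Finset V) (S S' : Finset ι), Disjoint S S' → gg vs Z (S ∪ S') =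
    gg vs Z S + 2 * ((S'.biUnion vs \ (Z ∪ S.biUnion vs)).card : ℤ) -
      ∑ c ∈ S', ((vs c \ Z).card : ℤ)

/-- properties of the atoms (module ATP) -/
structure AP (vs : ι → Finset V) (A : Finset V) : Prop where
  mem : ∀ x, x ∉ A → x ∈ att vs A x
  dis : ∀ x, x ∉ A → Disjoint (att vs A x) A
  two : ∀ x, x ∉ A → (att vs A x).card ≤ 2
  isa : ∀ x, x ∉ A → IsAt vs A (att vs A x)
  eqv : ∀ x y, x ∉ A → y ∈ att vs A x → att vs A y = att vs A x
  pai : ∀ c x, (vs c \ A).card = 2 → x ∈ vs c \ A → att vs A x = vs c \ A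
  sin : ∀ x, x ∉ A → (∀ c, (vs c \ A).card = 2 → x ∉ vs c) → att vs A x = {x}
  ats : ∀ e x, IsAt vs A e → x ∈ e → att vs A x = e

/-- a family of atoms all of whose subfamilies may be added to `A` -/
structure GF (vs : ι → Finset V) (q : ℕ) (A : Finset V) (E : Finset (Finset V)) : Prop where
  ats : ∀ e ∈ E, IsAt vs A e
  sub : ∀ I ⊆ E, UA vs A (I.biUnion id) ∧ SPa vs q (A ∪ I.biUnion id)

/-- `X` catches the tight families of clauses of `Z` -/
def Cat (vs : ι → Finset V) (q : ℕ) (Z X : Finset V) : Prop :=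
  ∀ S : Finset ι, S.Nonempty → S.card ≤ q → (∀ c ∈ S, ¬ vs c ⊆ Z) → gg vs Z S ≤ 1 →
    S.biUnion vs ⊆ X

/-- A good enlargement of `G` for `Λ` and `P` -/
structure NX (vs : ι → Finset V) (q τ r : ℕ) (G : Finset V)
    (Λ P : Submodule (ZMod 2) (V → ZMod 2)) (E J : Finset V)
    (P' : Submodule (ZMod 2) (V → ZMod 2)) : Prop where
  le : P ≤ P'
  le' : P' ≤ Λ
  pm : P' ≤ PM vs (Cl vs q (G ∪ E))
  crd : E.card + τ * Module.finrank (ZMod 2) P ≤ τ * Module.finrank (ZMod 2) P'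
  jc : J.card ≤ 2 * r
  spa : SPa vs q (Cl vs q (G ∪ E) ∪ J)
  spb : SPb vs (Cl vs q (G ∪ E) ∪ J)
  evn : ∀ b ∈ Λ, ∑ i ∈ (Cl vs q (G ∪ E) ∪ J)ᶜ, b i = 0

end Graph

end Pool.Agent.Helper82.RD
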