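import Pool.Agent.Helper82.RD.Nxt
import Pool.Agent.Helper82.RD.M_COR
import Pool.Agent.Helper58.RD.EXT
import Pool.Agent.Helper83.RD.M_TRI
import Pool.Agent.Helper89.RD.M_NAR
import Pool.Agent.Helper94.RD.M_DEG

/-!
# Project RD: the deterministic part
-/

set_option autoImplicit false

open Finset MP86d903

namespace Pool.Agent.Helper82.RD

variable {n m : ℕ}

/-- the span of the coefficient vectors modulo two of the heavy critical lines on a list of lines -/
noncomputable def Sp {F : Fin m → Clause n} (π : Refutation F) (ε δ η : ℝ)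
    (p : List (Fin π.size)) : Submodule (ZMod 2) (Fin n → ZMod 2) :=
  Submodule.span (ZMod 2) ((fun i => vv (π.line i).coef) '' hvy π ε δ η p)

theorem Sp_mono {F : Fin m → Clause n} (π : Refutation F) (ε δ η : ℝ)
    {p p' : List (Fin π.size)} (h : ∀ x ∈ p, x ∈ p') : Sp π ε δ η p ≤ Sp π ε δ η p' := by
  apply Submodule.span_mono
  apply Set.image_mono
  intro x hx
  exact ⟨h x hx.1, hx.2⟩

theorem hd_light {vs ng : Fin m → Finset (Fin n)} {q h w τ r : ℕ} {T₀ T₁ : Finset (Fin n)}
    {ρ₀ : Fin n → Bool} {Λ : Submodule (ZMod 2) (Fin n → ZMod 2)} {δ : ℝ} (hT : T₀ ⊆ T₁)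
    (hδ : 0 < δ * n) (hh : δ * n ≤ h) (L : Ineq n)
    (Z : Finset (Fin n)) (hZ : ∀ v ∈ Z, (falsity L : ℝ) ≤ δ * n * |(L.coef v : ℝ)|)
    (hhit : h ≤ hits Z (fun v => decide (0 < L.coef v)) (Cl vs q T₀) ρ₀) :
    Hd vs ng q T₀ T₁ ρ₀ w τ r Λ L.coef L.rhs := by
  classical
  set H := (Z ∩ Cl vs q T₀).filter (fun v => ρ₀ v = decide (0 < L.coef v)) with hH
  have hcard : h ≤ H.card := hhit
  refine (mTRI (ng := ng) hT).2.2.2.2 L.coef L.rhs H ?_ ?_ ?_
  · intro v hv
    exact (mem_inter.mp (mem_filter.mp hv).1).2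
  · intro v hv
    exact (mem_filter.mp hv).2
  · rw [← falsity_eq]
    by_cases h0 : falsity L ≤ 0
    · exact h0.trans (Finset.sum_nonneg (fun v _ => abs_nonneg _))
    · rw [not_le] at h0
      have h0' : (0 : ℝ) < falsity L := by exact_mod_cast h0
      have h1 : (H.card : ℝ) * (falsity L : ℝ) ≤ δ * n * ∑ v ∈ H, |(L.coef v : ℝ)| := by
        rw [Finset.mul_sum, ← nsmul_eq_mul]
        refine Finset.card_nsmul_le_sum _ _ _ (fun v hv => ?_)
        exact hZ v (mem_inter.mp (mem_filter.mp hv).1).1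
      have h2 : δ * n ≤ (H.card : ℝ) := hh.trans (by exact_mod_cast hcard)
      have h3 : δ * n * (falsity L : ℝ) ≤ δ * n * ∑ v ∈ H, |(L.coef v : ℝ)| :=
        (mul_le_mul_of_nonneg_right h2 h0'.le).trans h1
      have h4 := le_of_mul_le_mul_left h3 hδ
      have h5 : ((falsity L : ℤ) : ℝ) ≤ ((∑ v ∈ H, |L.coef v| : ℤ) : ℝ) := by
        push_cast
        exact h4
      exact_mod_cast h5

theorem det2 (F : Fin m → Clause n) {R M w h t₀ k r D : ℕ} {ε δ η : ℝ}
    (hE : Exp (vsF F) R) (hR : 34 * M ≤ R)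
    (hM : t₀ + k + 2 * w + 2 * ((76 + 12 * D) * r * r) + 2 * (r * r) + 4 * r ≤ M)
    (hK : (37 * M : ℝ) ≤ η * n) (hw1 : ε * n ≤ w) (hw2 : ∀ k : ℕ, ε * n ≤ k → w ≤ k)
    (hδ : 0 < δ * n) (hh : δ * n ≤ h) (h74 : 74 * t₀ ≤ w) (hwn : w ≤ n) (hn : 0 < n)
    (hrM : 18 * r + 10 ≤ 22 * M) (hk : ∀ j : ℕ, (D + 1) * j ≤ 3 * m → j ≤ k)
    (hsmall : (2 : ℝ) ^ (δ * n) * (1 - w / (8 * n)) ^ t₀ * 2 ^ h < 2)
    (π : Refutation F) :
    (2 : ℝ) ^ (δ * n) < {i | π.IsCritical ε η i ∧ IsLight ε δ (π.line i)}.ncard ∨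
      ∃ p, π.IsPath p ∧ r + 1 ≤ Module.finrank (ZMod 2) (Sp π ε δ η p) := by
  classical
  rw [or_iff_not_imp_left]
  intro hlight
  rw [not_lt] at hlight
  by_contra hpath
  push Not at hpath
  have hM0 : 1 ≤ M := by omega
  set q := 22 * M with hq
  have hC : ∀ T : Finset (Fin n), T.card ≤ M → (Cl (vsF F) q T).card ≤ 37 * T.card := by
    intro T hT
    exact card_Cl_le hE (fun c => (vsF_card F c).le) T (by omega)
  have hI : ∀ T : Finset (Fin n), T.card ≤ M →
      (inside (vsF F) (Cl (vsF F) q T)).card ≤ q := by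
    intro T hT
    have h1 := hC T hT
    have h2 := card_inside_le hE (Cl (vsF F) q T) (by omega)
    omega
  set 𝓔 : Finset (Fin π.size) :=
    univ.filter (fun i => π.IsCritical ε η i ∧ IsLight ε δ (π.line i)) with h𝓔
  have h𝓔card : (𝓔.card : ℝ) ≤ (2 : ℝ) ^ (δ * n) := by
    rw [← Set.ncard_coe_finset]
    refine le_trans (le_of_eq ?_) hlight
    congr 2
    ext i
    simp [h𝓔]
  set Z : Fin π.size → Finset (Fin n) := fun i =>
    univ.filter (fun v => (falsity (π.line i) : ℝ) ≤ δ * n * |((π.line i).coef v : ℝ)|) with hZ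
  have hZcard : ∀ i ∈ 𝓔, w ≤ (Z i).card := by
    intro i hi
    apply hw2
    have h1 := (mem_filter.mp hi).2.2
    unfold IsLight at h1
    rw [← Set.ncard_coe_finset]
    refine h1.trans (le_of_eq ?_)
    congr 2
    ext v
    simp [hZ]
  have hw8 : 0 ≤ 1 - (w : ℝ) / (8 * n) := by
    have h1 : (w : ℝ) ≤ n := by exact_mod_cast hwn
    have h2 : (0 : ℝ) < n := by exact_mod_cast hn
    rw [sub_nonneg, div_le_one (by positivity)]
    linarith
  obtain ⟨T₀, ρ₀, hT₀, hρ₀, hhits⟩ := exists_root (ng := ngF F) (κ := Fin π.size)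
    (fun c => vsF_card F c) hI hC 𝓔 Z
    (fun i v => decide (0 < (π.line i).coef v)) (w := w) (h := h) (t := t₀)
    hZcard (by rw [Fintype.card_fin]; exact hwn) (by rw [Fintype.card_fin]; exact hn)
    (by omega) h74 (by
      rw [Fintype.card_fin]
      refine lt_of_le_of_lt ?_ hsmall
      refine mul_le_mul_of_nonneg_right ?_ (by positivity)
      exact mul_le_mul_of_nonneg_right h𝓔card (pow_nonneg hw8 _))
  -- the variables of high degree
  set H₁ : Finset (Fin n) :=
    univ.filter (fun x => D < (univ.filter (fun c => x ∈ vsF F c)).card) with hH₁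
  have hH₁card : H₁.card ≤ k := by
    apply hk
    have h1 := mDEG (V := Fin n) (vs := vsF F) (fun c => vsF_card F c) D
    rw [Fintype.card_fin] at h1
    exact h1
  set T₁ : Finset (Fin n) := T₀ ∪ H₁ with hT₁
  have hTT : T₀ ⊆ T₁ := subset_union_left
  have hT₁card : T₁.card ≤ t₀ + k := by
    have h1 := card_union_le T₀ H₁
    rw [← hT₁] at h1
    omega
  have hD : ∀ x, x ∉ T₁ → (univ.filter (fun c => x ∈ vsF F c)).card ≤ D := by
    intro x hx
    by_contra hcon
    rw [not_le] at hcon
    exact hx (mem_union_right _ (mem_filter.mpr ⟨mem_univ _, hcon⟩))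
  set τ := (76 + 12 * D) * r with hτ
  have hM' : T₁.card + 2 * w + 2 * (τ * r) + 2 * (r * r) + 4 * r ≤ M := by
    omega
  have h3 : ∀ c, (vsF F c).card = 3 := fun c => vsF_card F c
  have hq2 : 2 ≤ q := by omega
  have hEXT : ∀ (Z B : Finset (Fin n)) (ρ : Fin n → Bool), SPa (vsF F) q Z → SPb (vsF F) Z →
      (inside (vsF F) B).card ≤ q → Valid (vsF F) (ngF F) ρ Z →
      ∃ σ : Fin n → Bool, (∀ i ∈ Z, σ i = ρ i) ∧ Valid (vsF F) (ngF F) σ B ∧
        Valid (vsF F) (ngF F) (flip Z σ) B :=
    fun Z B ρ a b c d => Pool.Agent.Helper58.RD.pEXT a b c d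
  have hNXT : ∀ Λ : Submodule (ZMod 2) (Fin n → ZMod 2), Module.finrank (ZMod 2) Λ ≤ r →
      ∀ (G : Finset (Fin n)) (P : Submodule (ZMod 2) (Fin n → ZMod 2)), T₁ ⊆ G → P ≤ Λ →
      P ≤ PM (vsF F) (Cl (vsF F) q G) →
      ∃ (E J : Finset (Fin n)) (P' : Submodule (ZMod 2) (Fin n → ZMod 2)),
        NX (vsF F) q τ r G Λ P E J P' :=
    fun Λ hΛ G P hG hP hPM => nxt h3 hq2 (by omega) le_rfl hD hΛ G P hG hP hPM
  -- the main claim
  have main : ∀ (N : ℕ) (i : Fin π.size), (i : ℕ) = N →
      ∀ Λ : Submodule (ZMod 2) (Fin n → ZMod 2),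
      (∀ p, π.IsPath (i :: p) → Module.finrank (ZMod 2)
        (Λ ⊔ Sp π ε δ η (i :: p) : Submodule (ZMod 2) (Fin n → ZMod 2)) ≤ r) →
      Hd (vsF F) (ngF F) q T₀ T₁ ρ₀ w τ r Λ (π.line i).coef (π.line i).rhs := by
    intro N
    induction N using Nat.strong_induction_on with
    | _ N ih =>
    intro i hiN Λ hp
    have ih' : ∀ j : Fin π.size, j < i →
        ∀ Λ : Submodule (ZMod 2) (Fin n → ZMod 2),
        (∀ p, π.IsPath (j :: p) → Module.finrank (ZMod 2)
          (Λ ⊔ Sp π ε δ η (j :: p) : Submodule (ZMod 2) (Fin n → ZMod 2)) ≤ r) →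
        Hd (vsF F) (ngF F) q T₀ T₁ ρ₀ w τ r Λ (π.line j).coef (π.line j).rhs := by
      intro j hj
      exact ih j (by rw [← hiN]; exact hj) j rfl
    have hsub : ∀ j p, Sp π ε δ η (j :: p) ≤ Sp π ε δ η (i :: j :: p) := by
      intro j p
      exact Sp_mono π ε δ η (fun x hx => List.mem_cons_of_mem _ hx)
    have hΛr : Module.finrank (ZMod 2) Λ ≤ r := by
      refine le_trans ?_ (hp [] (List.isChain_singleton i))
      exact Submodule.finrank_mono le_sup_left
    have hdown : ∀ j, (∀ p, π.IsPath (j :: p) → π.IsPath (i :: j :: p)) →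
        ∀ p, π.IsPath (j :: p) → Module.finrank (ZMod 2)
          (Λ ⊔ Sp π ε δ η (j :: p) : Submodule (ZMod 2) (Fin n → ZMod 2)) ≤ r := by
      intro j hj p hpp
      refine le_trans ?_ (hp _ (hj p hpp))
      exact Submodule.finrank_mono (sup_le_sup_left (hsub j p) Λ)
    have hjust := π.justified i
    rcases hr : π.rule i with c | v | v | ⟨j, l, α, β⟩ | ⟨j, c⟩
    · rw [hr] at hjust
      have h1 : π.line i = clauseIneq (F c) := hjust
      rw [h1]
      exact (mTRI (vs := vsF F) (ng := ngF F) hTT).1 (ngF_subset F) c _ _ (fun v => rfl) rfl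
    · rw [hr] at hjust
      have h1 : π.line i = ⟨Pi.single v 1, 0⟩ := hjust
      rw [h1]
      exact (mTRI (vs := vsF F) (ng := ngF F) hTT).2.1 v
    · rw [hr] at hjust
      have h1 : π.line i = ⟨Pi.single v (-1), -1⟩ := hjust
      rw [h1]
      exact (mTRI (vs := vsF F) (ng := ngF F) hTT).2.2.1 v
    · rw [hr] at hjust
      obtain ⟨hj, hl, h1⟩ : j < i ∧ l < i ∧ π.line i = ⟨fun v =>
        α * (π.line j).coef v + β * (π.line l).coef v,
        α * (π.line j).rhs + β * (π.line l).rhs⟩ := hjust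
      have hpj : ∀ p, π.IsPath (j :: p) → π.IsPath (i :: j :: p) := by
        intro p hpp
        refine List.isChain_cons_cons.mpr ⟨?_, hpp⟩
        rw [hr]
        exact Or.inl rfl
      have hpl : ∀ p, π.IsPath (l :: p) → π.IsPath (i :: l :: p) := by
        intro p hpp
        refine List.isChain_cons_cons.mpr ⟨?_, hpp⟩
        rw [hr]
        exact Or.inr rfl
      rw [h1]
      exact (mTRI (vs := vsF F) (ng := ngF F) hTT).2.2.2.1 _ _ _ _ _ _ α β (fun v => rfl) rfl
        (ih' j hj Λ (hdown j hpj)) (ih' l hl Λ (hdown l hpl))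
    · rw [hr] at hjust
      obtain ⟨hj, hc, hcoef, hrhs⟩ : j < i ∧ 1 ≤ c ∧
        (∀ v, (π.line j).coef v = c * (π.line i).coef v) ∧
        (π.line i).rhs = ⌈((π.line j).rhs : ℚ) / c⌉ := hjust
      have hstep : ∀ p, π.IsPath (j :: p) → π.IsPath (i :: j :: p) := by
        intro p hpp
        refine List.isChain_cons_cons.mpr ⟨?_, hpp⟩
        rw [hr]
        rfl
      have h1 := ih' j hj Λ (hdown j hstep)
      by_cases hcrit : π.IsCritical ε η i
      · by_cases hlt : IsLight ε δ (π.line i)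
        · have hi𝓔 : i ∈ 𝓔 := mem_filter.mpr ⟨mem_univ _, hcrit, hlt⟩
          exact hd_light hTT hδ hh (π.line i) (Z i)
            (fun v hv => (mem_filter.mp hv).2) (hhits i hi𝓔)
        · -- a heavy critical step
          have hmem : ∀ p, vv (π.line i).coef ∈ Sp π ε δ η (i :: p) := by
            intro p
            apply Submodule.subset_span
            exact ⟨i, ⟨List.mem_cons_self, hcrit, hlt⟩, rfl⟩
          have hΛ' : Module.finrank (ZMod 2)
              (Λ ⊔ Submodule.span (ZMod 2) {vv (π.line i).coef} :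
                Submodule (ZMod 2) (Fin n → ZMod 2)) ≤ r := by
            refine le_trans ?_ (hp [] (List.isChain_singleton i))
            refine Submodule.finrank_mono (sup_le_sup_left ?_ Λ)
            rw [Submodule.span_singleton_le_iff_mem]
            exact hmem []
          have h2 := ih' j hj (Λ ⊔ Submodule.span (ZMod 2) {vv (π.line i).coef}) (by
            intro p hpp
            refine le_trans ?_ (hp _ (hstep p hpp))
            refine Submodule.finrank_mono ?_
            refine sup_le (sup_le le_sup_left ?_) ((hsub j p).trans le_sup_right)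
            rw [Submodule.span_singleton_le_iff_mem]
            exact Submodule.mem_sup_right (hmem _))
          exact mCOR (M := M) hTT hI hM' hc hcoef hrhs hΛ' (pmm h3 hq2)
            (hNXT _ hΛ') hEXT h1 h2
      · by_cases hwide : ε * n ≤ ({v | (π.line i).coef v ≠ 0}.ncard : ℝ)
        · intro A ρ hF
          by_contra hcon
          rw [not_le] at hcon
          apply hcrit
          refine ⟨hwide, j, c, hr, pt A ρ, ?_, ?_, h1 A ρ hF, hcon⟩
          · intro v
            unfold pt
            split_ifs <;> simp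
          · obtain ⟨T, J, P, hA, hJ, hPΛ, -, hT, -⟩ := hF
            have hP : Module.finrank (ZMod 2) P ≤ r :=
              (Submodule.finrank_mono hPΛ).trans hΛr
            have h5 : (T₁ ∪ T ∪ J).card ≤ M := by
              have e1 := card_union_le (T₁ ∪ T) J
              have e2 := card_union_le T₁ T
              have e3 : τ * Module.finrank (ZMod 2) P ≤ τ * r := Nat.mul_le_mul_left _ hP
              have e4 : 2 * r * Module.finrank (ZMod 2) Λ ≤ 2 * r * r :=
                Nat.mul_le_mul_left _ hΛr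
              have e5 : 2 * r * r = 2 * (r * r) := by ring
              omega
            have h6 : A ⊆ Cl (vsF F) q (T₁ ∪ T ∪ J) := by
              rw [hA]
              refine union_subset (Cl_mono subset_union_left) ?_
              exact subset_union_right.trans (subset_Cl q _)
            have h7 : {v | pt A ρ v ≠ 1}.ncard ≤ 37 * M := by
              have h4 : {v | pt A ρ v ≠ 1} ⊆ (A : Set (Fin n)) := by
                intro v hv
                by_contra hvA
                exact hv (by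
                  unfold pt
                  exact if_neg (fun hva => hvA hva))
              refine (Set.ncard_le_ncard h4 (Set.toFinite _)).trans ?_
              rw [Set.ncard_coe_finset]
              refine (card_le_card h6).trans ((hC _ h5).trans ?_)
              omega
            refine le_trans ?_ hK
            exact_mod_cast h7
        · rw [not_le] at hwide
          refine mNAR (M := M) hTT hΛr hI hM' (hNXT Λ hΛr) hEXT hc hcoef hrhs ?_ h1
          have h4 : ({v | (π.line i).coef v ≠ 0}.ncard : ℝ) ≤ w := hwide.le.trans hw1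
          have h5 : {v | (π.line i).coef v ≠ 0}.ncard ≤ w := by exact_mod_cast h4
          rw [← Set.ncard_coe_finset]
          refine le_trans (le_of_eq ?_) h5
          congr 1
          ext v
          simp
  obtain ⟨i, hi⟩ := π.falsum
  have h1 := main i i rfl ⊥ (fun p hpp => by
    have := hpath _ hpp
    rw [bot_sup_eq]
    omega)
  -- a state for `⊥`
  obtain ⟨σ, hσ, hσ1, -⟩ := exists_ext (ng := ngF F) (A := Cl (vsF F) q T₀)
    (B := Cl (vsF F) q T₁) (ρ := ρ₀) (fun c => (vsF_card F c).le) (closed_Cl q T₀)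
    (hI T₁ (by omega)) hρ₀
  have hcl := mCLB h3 hq2 (closed_Cl (vs := vsF F) q T₁)
  have h2 := h1 (Cl (vsF F) q T₁) σ ⟨∅, ∅, ⊥, by simp, by simp, bot_le, bot_le, by simp,
    (fun S hS hSq hSc => by
      have := hcl.gg2 S hS hSq hSc
      omega), hcl.two, hσ1, hσ, (fun b hb => by
      rw [Submodule.mem_bot] at hb
      rw [hb]
      simp)⟩
  rw [hi] at h2
  simp at h2

end Pool.Agent.Helper82.RD
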