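import Pool.Agent.Helper82.RD.Defs

/-!
# Project RD, module ADS: adding an atom keeps the first splitting condition
-/

set_option autoImplicit false

open Finset MP86d903

namespace Pool.Agent.Helper82.RD

variable {ι V : Type} [DecidableEq ι] [Fintype ι] [Fintype V] [DecidableEq V]
  {vs ng : ι → Finset V} {q : ℕ}

theorem mADS (hGI : GI vs) {A J e X : Finset V} (hCL : CL vs q A) (hJ : UA vs A J)
    (hJS : SPa vs q (A ∪ J)) (he : IsAt vs A e) (heJ : Disjoint e J) (heX : Disjoint e X)
    (hX : Cat vs q (A ∪ J) X) (hJq : 3 * J.card + 10 ≤ q) : SPa vs q (A ∪ (J ∪ e)) := by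
  have heA : Disjoint e A := by
    rcases he with ⟨x, hxA, rfl, -⟩ | ⟨d, -, rfl⟩
    · exact disjoint_singleton_left.mpr hxA
    · exact sdiff_disjoint
  have hec : e.card ≤ 2 := by
    rcases he with ⟨x, -, rfl, -⟩ | ⟨d, hd, rfl⟩
    · rw [card_singleton]
      omega
    · exact hd.le
  have heZ : Disjoint e (A ∪ J) := disjoint_union_right.mpr ⟨heA, heJ⟩
  have hass : A ∪ (J ∪ e) = (A ∪ J) ∪ e := (union_assoc _ _ _).symm
  intro S hS hSq hSc
  have hScZ : ∀ c ∈ S, ¬ vs c ⊆ A ∪ J := by
    intro c hc h
    apply hSc c hc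
    rw [hass]
    exact h.trans subset_union_left
  have hScA : ∀ c ∈ S, ¬ vs c ⊆ A := fun c hc h => hScZ c hc (h.trans subset_union_left)
  have hadd := hGI.add (A ∪ J) e heZ S
  have hlow := hGI.low e S
  have hJS1 := hJS S hS hSq hScZ
  rw [hass]
  rcases he with ⟨x, hxA, hex, hx⟩ | ⟨d, hd, hed⟩
  · by_cases hxN : x ∈ S.biUnion vs
    · have h1 : (S.biUnion vs ∩ e).card = 1 := by
        rw [hex, inter_singleton_of_mem hxN, card_singleton]
      have h2 : 2 ≤ gg vs (A ∪ J) S := by
        by_contra hcon
        have h3 := hX S hS hSq hScZ (by omega)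
        exact Finset.disjoint_left.mp heX (by rw [hex]; exact mem_singleton_self x) (h3 hxN)
      rw [h1] at hadd hlow
      push_cast at hadd hlow
      omega
    · have h1 : (S.biUnion vs ∩ e).card = 0 := by
        rw [hex, inter_singleton_of_notMem hxN, card_empty]
      rw [h1] at hadd hlow
      push_cast at hadd hlow
      omega
  · have hed2 : e.card = 2 := by rw [hed]; exact hd
    by_cases hq1 : S.card + 1 ≤ q
    · have hdS : d ∉ S := by
        intro hdS
        apply hSc d hdS
        intro y hy
        by_cases hyA : y ∈ A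
        · exact mem_union_left _ hyA
        · exact mem_union_right _ (mem_union_right _ (by
            rw [hed]
            exact mem_sdiff.mpr ⟨hy, hyA⟩))
      have hdZ' : vs d \ (A ∪ J) = e := by
        ext y
        rw [hed]
        simp only [mem_sdiff, mem_union, not_or]
        constructor
        · rintro ⟨h1, h2, -⟩
          exact ⟨h1, h2⟩
        · rintro ⟨h1, h2⟩
          refine ⟨h1, h2, fun h3 => ?_⟩
          exact Finset.disjoint_left.mp heJ (by rw [hed]; exact mem_sdiff.mpr ⟨h1, h2⟩) h3
      have hdZ : ¬ vs d ⊆ A ∪ J := by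
        intro h
        rw [sdiff_eq_empty_iff_subset.mpr h] at hdZ'
        rw [← hdZ', card_empty] at hed2
        omega
      have hdisj : Disjoint S {d} := disjoint_singleton_right.mpr hdS
      have huni := hGI.uni (A ∪ J) S {d} hdisj
      rw [sum_singleton, singleton_biUnion, hdZ', hed2] at huni
      have h1 : (vs d \ (A ∪ J ∪ S.biUnion vs)).card + (S.biUnion vs ∩ e).card = 2 := by
        have h2 : vs d \ (A ∪ J ∪ S.biUnion vs) = e \ S.biUnion vs := by
          rw [← hdZ']
          ext y
          simp only [mem_sdiff, mem_union, not_or]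
          tauto
        rw [h2, inter_comm, card_sdiff_add_card_inter]
        exact hed2
      have hne : (S ∪ {d}).Nonempty := hS.mono subset_union_left
      have hcq : (S ∪ {d}).card ≤ q := by
        refine (card_union_le _ _).trans ?_
        rw [card_singleton]
        exact hq1
      have hcc : ∀ c ∈ S ∪ {d}, ¬ vs c ⊆ A ∪ J := by
        intro c hc
        rcases mem_union.mp hc with hc | hc
        · exact hScZ c hc
        · rw [mem_singleton] at hc
          rw [hc]
          exact hdZ
      have h2 : 2 ≤ gg vs (A ∪ J) (S ∪ {d}) := by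
        by_contra hcon
        have h3 := hX (S ∪ {d}) hne hcq hcc (by omega)
        obtain ⟨y, hy⟩ : e.Nonempty := card_pos.mp (by omega)
        have h4 : y ∈ vs d := by
          rw [hed] at hy
          exact (mem_sdiff.mp hy).1
        exact Finset.disjoint_left.mp heX hy
          (h3 (mem_biUnion.mpr ⟨d, mem_union_right _ (mem_singleton_self d), h4⟩))
      have h1' : ((vs d \ (A ∪ J ∪ S.biUnion vs)).card : ℤ) + ((S.biUnion vs ∩ e).card : ℤ) = 2 := by
        exact_mod_cast h1
      push_cast at huni
      by_cases hs : ∑ c ∈ S, ((vs c ∩ e).card : ℤ) ≤ 0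
      · have h5 : (0 : ℤ) ≤ ((S.biUnion vs ∩ e).card : ℤ) := Nat.cast_nonneg _
        omega
      · omega
    · have hdisj2 : Disjoint (J ∪ e) A := disjoint_union_left.mpr ⟨hJ.disj, heA⟩
      have hadd2 := hGI.add A (J ∪ e) hdisj2 S
      have hlow2 := hGI.low (J ∪ e) S
      have h1 : ((S.biUnion vs ∩ (J ∪ e)).card : ℤ) ≤ (J.card : ℤ) + 2 := by
        have h2 : (S.biUnion vs ∩ (J ∪ e)).card ≤ J.card + 2 := by
          refine (card_le_card inter_subset_right).trans ((card_union_le _ _).trans ?_)
          omega
        exact_mod_cast h2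
      have h3 := hCL.gg3 S hS hSq hScA
      rw [← hass]
      have h4 : (q : ℤ) ≤ (S.card : ℤ) := by
        have : q ≤ S.card := by omega
        exact_mod_cast this
      have h5 : 3 * (J.card : ℤ) + 10 ≤ (q : ℤ) := by exact_mod_cast hJq
      omega

end Pool.Agent.Helper82.RD
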