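import Pool.Agent.Helper82.RD.Defs

/-!
# Project RD (MP_86d903_lc): the modules

Every theorem below is one module; needed facts of other modules are hypotheses (or fields of `CL`, `GI`, `AP`).
`vs c` is the set of the variables of the clause `c` (three variables), `N(S) = S.biUnion vs`.
-/

set_option autoImplicit false

open Finset MP86d903

namespace Pool.Agent.Helper82.RD

variable {ι V : Type} [DecidableEq ι] [Fintype ι] [Fintype V] [DecidableEq V]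
  {vs ng : ι → Finset V} {q : ℕ}

/-- CLB.  PROOF.  `le3`: trivial.  For `S` as in `gg2`, `s = |S| ≥ 1`: `Closed` gives `5 s < 3 |N(S) \ A|` and
`∑ |vs c \ A| ≤ 3 s`, so `3 gg ≥ 2 (5 s + 1) - 9 s = s + 2 > s` (`gg3`), and for `s ≥ 2` this is `> 3`, so `gg ≥ 2`; for
`s = 1`, `S = {c}`: `gg = |vs c \ A| ≥ 2`, since `5 < 3 |vs c \ A|` (`two`).  `int`: `S = {c, c'}` (`2 ≤ q`):
`10 < 3 |N(S) \ A|`, so `|N(S) \ A| ≥ 4`, and `|vs c \ A| + |vs c' \ A| = |(vs c ∪ vs c') \ A| + |(vs c ∩ vs c') \ A|`. -/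
theorem pCLB (h3 : ∀ c, (vs c).card = 3) (hq : 2 ≤ q) {A : Finset V} (hA : Closed vs q A) :
    CL vs q A := by
  sorry

/-- GGI.  PROOF.  `add`: `J` is disjoint from `Z`, so `|N(S) \ (Z ∪ J)| = |N(S) \ Z| - |N(S) ∩ J|` and
`|vs c \ (Z ∪ J)| = |vs c \ Z| - |vs c ∩ J|`.  `low`: `N(S) ∩ J = ⋃_{c ∈ S} (vs c ∩ J)` (`card_biUnion_le`).
`uni`: `N(S ∪ S') \ Z` is the disjoint union of `N(S) \ Z` and `N(S') \ (Z ∪ N(S))`; the sums add up. -/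
theorem pGGI : GI vs := by
  sorry

/-- BAD.  PROOF.  For a family `U` of clauses not inside `A` let
`ω(U) = 2 |N(U) \ (A ∪ J)| - ∑_{c ∈ U} |vs c \ A| = gg A U - 2 |N(U) ∩ J|`.  Let `U` have maximal cardinality among
the families with `|U| ≤ q`, all clauses not inside `A`, `ω(U) ≤ 0` (`∅` is one).  `gg A U ≤ 2 |J|`, so
`|U| ≤ 6 |J|` by `gg3`, and `X = N(U)` has `|X| ≤ 3 |U| ≤ 18 |J|`.
Let `J' ⊆ J`, `Z' = A ∪ J'`, `SPa Z'`, and let `S ≠ ∅`, `|S| ≤ q`, all clauses of `S` not inside `Z'`, `gg Z' S ≤ 1`.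
By `add` and `low`: `gg Z' S ≥ gg A S - |N(S) ∩ J'| ≥ gg A S - |J|`, so `gg A S ≤ 1 + |J|`, `|S| ≤ 3 |J| + 2` by `gg3`,
and `|U ∪ S| ≤ 9 |J| + 2 ≤ q`.  Let `S₀ = S \ U`.
`ω(U ∪ S) = ω(U) + 2 |N(S₀) \ (A ∪ J ∪ N(U))| - ∑_{S₀} |vs c \ A|`;
`N(S₀) \ (A ∪ J ∪ N(U)) ⊆ N(S) \ (Z' ∪ N(S ∩ U))`, so `|...| ≤ |N(S) \ Z'| - |N(S ∩ U) \ Z'|`; and
`∑_{S₀} |vs c \ A| = ∑_S |vs c \ Z'| - ∑_{S ∩ U} |vs c \ Z'| + ∑_{S₀} |vs c ∩ J'|`.  So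
`ω(U ∪ S) ≤ ω(U) + gg Z' S - gg Z' (S ∩ U) - ∑_{S₀} |vs c ∩ J'|`.  If `S ∩ U ≠ ∅` then `gg Z' (S ∩ U) ≥ 1` by `SPa Z'`,
so `ω(U ∪ S) ≤ 0`.  If `S ∩ U = ∅` then `S₀ = S` and `∑_S |vs c ∩ J'| ≥ 1`, because otherwise `gg Z' S = gg A S ≥ 2`
(`add` with `N(S) ∩ J' = ∅`); so again `ω(U ∪ S) ≤ 0`.  By maximality `|U ∪ S| ≤ |U|`, so `S ⊆ U`, `N(S) ⊆ X`. -/
theorem pBAD (hGI : GI vs) (h3 : ∀ c, (vs c).card = 3) {A J : Finset V} (hCL : CL vs q A)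
    (hJ : Disjoint J A) (hJq : 9 * J.card + 3 ≤ q) :
    ∃ X : Finset V, X.card ≤ 18 * J.card ∧ ∀ J' ⊆ J, SPa vs q (A ∪ J') → Cat vs q (A ∪ J') X := by
  sorry

/-- ADU.  PROOF.  `disj`: an atom is disjoint from `A`.  `pair`: let `|vs c \ A| = 2`.  If `vs c \ A ⊆ J`: fine.
Otherwise `vs c` is disjoint from `J` (`hJ.pair`).  If `e = {x}` is the single atom: `x ∉ vs c`.  If `e = vs d \ A`,
`|vs d \ A| = 2`: for `c = d` we have `vs c \ A = e`; for `c ≠ d`, `hCL.int` gives `|(vs c ∩ vs d) \ A| = 0`, so `vs c` is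
disjoint from `e`.  `three`: if `vs c` meets `J` then it does not meet `e` (`hne`), and `|vs c ∩ (J ∪ e)| = |vs c ∩ J| ≤ 1`;
otherwise `|vs c ∩ (J ∪ e)| = |vs c ∩ e| ≤ 1`: clear for `e = {x}`; for `e = vs d \ A` (`c ≠ d` because of the
cardinalities) `hCL.int` gives `|(vs c ∩ vs d) \ A| + 4 ≤ 5`. -/
theorem pADU {A J e : Finset V} (hCL : CL vs q A) (hJ : UA vs A J) (he : IsAt vs A e)
    (hne : ∀ c, Disjoint (vs c) J ∨ Disjoint (vs c) e) : UA vs A (J ∪ e) := by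
  sorry

/-- ADS.  PROOF.  `Z = A ∪ J`, `Z' = A ∪ (J ∪ e) = Z ∪ e`; `e` is disjoint from `Z`.  Let `S ≠ ∅`, `|S| ≤ q`, all clauses of
`S` not inside `Z'` (so not inside `Z`).  SINGLE ATOM `e = {x}`: by `hGI.add`,
`gg Z' S = gg Z S - 2 |N(S) ∩ {x}| + ∑_S |vs c ∩ {x}|`.  If `x ∉ N(S)` it is `gg Z S ≥ 1`.  If `x ∈ N(S)` the sum is `≥ 1`
(`low`), so `gg Z' S ≥ gg Z S - 1`, and `gg Z S ≥ 2`: otherwise `N(S) ⊆ X` by `hX`, but `x ∈ N(S)`, `x ∉ X`.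
PAIR ATOM `e = vs d \ A = {x, y}`: `d ∉ S` because `vs d ⊆ A ∪ e ⊆ Z'`; `vs d \ Z = e` because `e` is disjoint from `J`;
`d` is not inside `Z`.  Case `|S| + 1 ≤ q`: by `uni` (`S, {d}`) and `add`:
`gg Z (S ∪ {d}) = gg Z S + 2 |e \ N(S)| - 2`, `gg Z' S = gg Z S - 2 |N(S) ∩ e| + ∑_S |vs c ∩ e|`, and
`|e \ N(S)| = 2 - |N(S) ∩ e|`, so `gg Z' S = gg Z (S ∪ {d}) - 2 + ∑_S |vs c ∩ e|`.  `gg Z (S ∪ {d}) ≥ 2`: it is `≥ 1` by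
`SPa Z`, and if it were `≤ 1`, then `e ⊆ N(S ∪ {d}) ⊆ X`.  So if `∑_S |vs c ∩ e| ≥ 1` we are done; if it is `0`, then
`N(S) ∩ e = ∅` and `gg Z' S = gg Z S ≥ 1`.  Case `|S| = q`: by `add` (`A`, `J ∪ e`) and `low`,
`gg Z' S ≥ gg A S - |N(S) ∩ (J ∪ e)| ≥ gg A S - |J| - 2`, and `3 gg A S > q ≥ 3 |J| + 10` (`gg3`), so `gg Z' S ≥ 1`. -/
theorem pADS (hGI : GI vs) {A J e X : Finset V} (hCL : CL vs q A) (hJ : UA vs A J)
    (hJS : SPa vs q (A ∪ J)) (he : IsAt vs A e) (heJ : Disjoint e J) (heX : Disjoint e X)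
    (hX : Cat vs q (A ∪ J) X) (hJq : 3 * J.card + 10 ≤ q) : SPa vs q (A ∪ (J ∪ e)) := by
  sorry

/-- SPB.  PROOF.  Let `vs c` be not inside `A ∪ J`; then not inside `A`, so `|vs c \ A|` is `2` or `3` (`two`, `le3`).  If it
is `2`: `vs c \ A ⊆ J` would give `vs c ⊆ A ∪ J`, so `vs c` is disjoint from `J` and `vs c \ (A ∪ J) = vs c \ A`.  If it is
`3`: `|vs c ∩ J| ≤ 1`, so `|vs c \ (A ∪ J)| ≥ 2`. -/
theorem pSPB {A J : Finset V} (hCL : CL vs q A) (hJ : UA vs A J) : SPb vs (A ∪ J) := by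
  sorry

/-- ATP.  PROOF.  Two pair clauses (`|vs c \ A| = 2`) through the same `x ∉ A` are equal: `hCL.int` gives
`|(vs c ∩ vs c') \ A| + 4 ≤ 4` if `c ≠ c'` (a pair clause is not inside `A`).  So in `att` the chosen clause is the only
pair clause through `x` (`x ∉ A`), which gives `pai`, `sin`; the other fields follow. -/
theorem pATP {A : Finset V} (hCL : CL vs q A) : AP vs A := by
  sorry

/-- SUM.  PROOF.  Strong induction on `|K|`: if `x ∈ K` then `att x ⊆ K`, the sum over `att x` is `bs vs A b x = 0`, and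
`K \ att x` satisfies the hypothesis: for `y ∈ K`, `y ∉ att x` the sets `att y ⊆ K` and `att x` are disjoint, since a common
element `z` would give `att y = att z = att x` (`eqv`) and `y ∈ att y` (`mem`). -/
theorem pSUM {A : Finset V} (hAP : AP vs A) {b : V → ZMod 2} (hb : b ∈ PM vs A) (K : Finset V)
    (hK : Disjoint K A) (hKa : ∀ x ∈ K, att vs A x ⊆ K) : ∑ i ∈ K, b i = 0 := by
  sorry

/-- PER.  PROOF.  Let `x ∉ A'`.  (1) If `d` is a pair clause of `A` (`|vs d \ A| = 2`) and contains `x`, it is a pair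
clause of `A'` and `vs d \ A' = vs d \ A`: `d` is not inside `A'`, so `2 ≤ |vs d \ A'| ≤ |vs d \ A| = 2` (`two`).
(2) Suppose no pair clause of `A'` contains `x`.  Then by (1) no pair clause of `A` does, so `att A' x = att A x = {x}`
(`sin`).  (3) Suppose the pair clause `c` of `A'` contains `x`; `att A' x = vs c \ A' = {x, y}`.  If `|vs c \ A| = 2`,
then `vs c \ A' = vs c \ A = att A x` by (1) and `pai`.  Otherwise `|vs c \ A| = 3` (`le3`); then no pair clause `d` of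
`A` contains `x` (by (1) `d` would be a pair clause of `A'` through `x`, `d ≠ c`, contradiction with `hCL'.int`), so
`att A x = {x}` and `b x = 0`; similarly `b y = 0`; so `bs A' b x = b x + b y = 0`. -/
theorem pPER {A A' : Finset V} (hCL : CL vs q A) (hCL' : CL vs q A') (hAP : AP vs A)
    (hAP' : AP vs A') (hAA : A ⊆ A') {b : V → ZMod 2} (hb : ∀ x, x ∉ A' → bs vs A b x = 0) :
    b ∈ PM vs A' := by
  sorry

/-- CNT.  PROOF.  If `x ∉ A` and `y ∈ att x ∩ Y` then `att y = att x ∋ x` and `y ∉ A`; so the set is contained in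
`⋃_{y ∈ Y \ A} att y`.  (ii) `⋃` of the `vs c` over the clauses `c` meeting `J`; there are at most `D |J|` such clauses. -/
theorem pCNT (h3 : ∀ c, (vs c).card = 3) {A : Finset V} (hAP : AP vs A) :
    (∀ Y : Finset V, (univ.filter (fun x => x ∉ A ∧ ¬ Disjoint (att vs A x) Y)).card ≤ 2 * Y.card) ∧
    ∀ (D : ℕ) (J : Finset V), (∀ x ∈ J, (univ.filter (fun c => x ∈ vs c)).card ≤ D) →
      ((univ.filter (fun c => ¬ Disjoint (vs c) J)).biUnion vs).card ≤ 3 * (D * J.card) := by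
  sorry

/-- GRS (one step of the greedy construction).  PROOF.  `J = E.biUnion id`, `|J| ≤ 2 |E| ≤ 2 r - 2`, disjoint from `A`;
let `X` be as in `hBAD` (`9 |J| + 3 ≤ q`).  `Y₂ = ` union of the `vs c`, `c` meeting `J`: `|Y₂| ≤ 3 D |J|`;
`Y = J ∪ X ∪ Y₂` has `|Y| ≤ (19 + 3 D) |J|`, so at most `2 |Y| ≤ (76 + 12 D) (r - 1) < |OO A b|` variables `x ∉ A` have an
atom meeting `Y`.  Take `x ∈ OO A b` whose atom `e` is disjoint from `Y`.  `e ∉ E` (`e ⊆ J` otherwise, and `x ∈ e`).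
Let `I ⊆ insert e E`.  If `e ∉ I`: `I ⊆ E`.  Otherwise `I = insert e I'`, `I' ⊆ E`, `J' = I'.biUnion id ⊆ J`,
`I.biUnion id = e ∪ J'`; no clause meets both `J'` and `e` (a clause meeting `J` lies in `Y₂`), so `hADU` and `hADS`
(`X` catches the tight families of `A ∪ J'` by the choice of `X`, `e` is disjoint from `J'` and `X`) apply. -/
theorem pGRS (h3 : ∀ c, (vs c).card = 3) {A : Finset V} (hCL : CL vs q A) (hAP : AP vs A)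
    (hBAD : ∀ J : Finset V, Disjoint J A → 9 * J.card + 3 ≤ q →
      ∃ X : Finset V, X.card ≤ 18 * J.card ∧ ∀ J' ⊆ J, SPa vs q (A ∪ J') → Cat vs q (A ∪ J') X)
    (hADU : ∀ J e : Finset V, UA vs A J → IsAt vs A e →
      (∀ c, Disjoint (vs c) J ∨ Disjoint (vs c) e) → UA vs A (J ∪ e))
    (hADS : ∀ J e X : Finset V, UA vs A J → SPa vs q (A ∪ J) → IsAt vs A e → Disjoint e J →
      Disjoint e X → Cat vs q (A ∪ J) X → 3 * J.card + 10 ≤ q → SPa vs q (A ∪ (J ∪ e)))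
    (hCNT : (∀ Y : Finset V,
        (univ.filter (fun x => x ∉ A ∧ ¬ Disjoint (att vs A x) Y)).card ≤ 2 * Y.card) ∧
      ∀ (D : ℕ) (J : Finset V), (∀ x ∈ J, (univ.filter (fun c => x ∈ vs c)).card ≤ D) →
        ((univ.filter (fun c => ¬ Disjoint (vs c) J)).biUnion vs).card ≤ 3 * (D * J.card))
    {D r τ : ℕ} (hD : ∀ x, x ∉ A → (univ.filter (fun c => x ∈ vs c)).card ≤ D)
    (hq : 18 * r + 10 ≤ q) (hτ : (76 + 12 * D) * r ≤ τ) {E : Finset (Finset V)}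
    (hE : GF vs q A E) (hEr : E.card + 1 ≤ r) {b : V → ZMod 2} (hb : τ < (OO vs A b).card) :
    ∃ x, x ∉ A ∧ bs vs A b x ≠ 0 ∧ att vs A x ∉ E ∧ GF vs q A (insert (att vs A x) E) := by
  sorry

/-- GRL (linear algebra).  PROOF.  On `Λ` consider the functionals `φ₀ b = ∑_K b`, `φ_e b = ∑_e b` (`e ∈ E`).  The common
kernel of the `φ_e` lies in the kernel of `φ₀`, so `φ₀` is a linear combination of them
(`mem_span_of_iInf_ker_le_ker`, `ι = E`), with coefficients in `ZMod 2 = {0, 1}`; `I` is the set of the `e` with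
coefficient `1`. -/
theorem pGRL (Λ : Submodule (ZMod 2) (V → ZMod 2)) (K : Finset V) (E : Finset (Finset V))
    (h : ∀ b ∈ Λ, (∀ e ∈ E, ∑ i ∈ e, b i = 0) → ∑ i ∈ K, b i = 0) :
    ∃ I ⊆ E, ∀ b ∈ Λ, ∑ i ∈ K, b i = ∑ e ∈ I, ∑ i ∈ e, b i := by
  sorry

/-- GRE (greedy construction).  PROOF.  For a good family `E` of atoms (`GF`) let `K_E = {b ∈ Λ : ∑_e b = 0 for all
e ∈ E}`.  Claim: there is a good `E` with `|E| ≤ r` and `∑_{Aᶜ} b = 0` for all `b ∈ K_E`.  Start with `E = ∅` (good: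
`I = ∅`; `UA vs A ∅` is trivial, `SPa vs q A` from `hCL.gg2`), and keep `|E| + finrank K_E ≤ finrank Λ ≤ r`.  If
`b ∈ K_E`, `∑_{Aᶜ} b ≠ 0`, then `OO A b ≠ ∅` (otherwise `b ∈ PM vs A` and `hSUM` with `K = Aᶜ`; `att x ⊆ Aᶜ` by `dis`), so
`τ < |OO A b|` by `hdi`, and `hGRS` (`|E| + 1 ≤ r` because `finrank K_E ≥ 1`) gives `x`; the new `K` is contained in `K_E`
and does not contain `b`, so its `finrank` is smaller.  Now `hGRL` (`K = Aᶜ`) gives `I ⊆ E`; `J = I.biUnion id`.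
`|J| ≤ 2 |I| ≤ 2 r` (an atom has at most two elements); `UA`, `SPa` by `hE.sub I`; and for `b ∈ Λ`:
`∑_{(A ∪ J)ᶜ} b = ∑_{Aᶜ} b - ∑_J b = 0`, because the atoms in `I` are pairwise disjoint (two atoms with a common element
are equal by `ats`), so `∑_J b = ∑_{e ∈ I} ∑_e b`. -/
theorem pGRE {A : Finset V} (hCL : CL vs q A) (hAP : AP vs A)
    (hSUM : ∀ b ∈ PM vs A, ∀ K : Finset V, Disjoint K A → (∀ x ∈ K, att vs A x ⊆ K) →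
      ∑ i ∈ K, b i = 0)
    (hGRL : ∀ (Λ : Submodule (ZMod 2) (V → ZMod 2)) (K : Finset V) (E : Finset (Finset V)),
      (∀ b ∈ Λ, (∀ e ∈ E, ∑ i ∈ e, b i = 0) → ∑ i ∈ K, b i = 0) →
      ∃ I ⊆ E, ∀ b ∈ Λ, ∑ i ∈ K, b i = ∑ e ∈ I, ∑ i ∈ e, b i)
    {r τ : ℕ}
    (hGRS : ∀ E : Finset (Finset V), GF vs q A E → E.card + 1 ≤ r → ∀ b : V → ZMod 2,
      τ < (OO vs A b).card →
      ∃ x, x ∉ A ∧ bs vs A b x ≠ 0 ∧ att vs A x ∉ E ∧ GF vs q A (insert (att vs A x) E))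
    (Λ : Submodule (ZMod 2) (V → ZMod 2)) (hΛ : Module.finrank (ZMod 2) Λ ≤ r)
    (hdi : ∀ b ∈ Λ, OO vs A b = ∅ ∨ τ < (OO vs A b).card) :
    ∃ J : Finset V, J.card ≤ 2 * r ∧ UA vs A J ∧ SPa vs q (A ∪ J) ∧
      ∀ b ∈ Λ, ∑ i ∈ (A ∪ J)ᶜ, b i = 0 := by
  sorry

/-- ABS (absorption of the vectors with few odd atoms).  PROOF.  Induction on `finrank Λ - finrank P`.  If every `b ∈ Λ`
has `OO = ∅` or `|OO| > τ` (for `Cl vs q G`) take `E = ∅`, `P' = P`.  Otherwise take `b ∈ Λ` with `OO(Cl G) b ≠ ∅` and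
`|OO(Cl G) b| ≤ τ`; `b ∉ P` (the vectors of `P ≤ PM(Cl G)` have `OO = ∅`).  Put `G₁ = G ∪ OO(Cl G) b`, `P₁ = P ⊔ span {b}`.
By `hPER` (`G ⊆ G₁`): `b ∈ PM(Cl G₁)` since `OO ⊆ G₁ ⊆ Cl G₁`, and `PM(Cl G) ≤ PM(Cl G₁)`; so `P₁ ≤ PM(Cl G₁)`,
`P₁ ≤ Λ`, `finrank P₁ = finrank P + 1`, `|OO| ≤ τ`.  Apply the induction hypothesis to `G₁, P₁` and put
`E = OO(Cl G) b ∪ E₁`. -/
theorem pABS {τ : ℕ}
    (hPER : ∀ G G' : Finset V, G ⊆ G' → ∀ b : V → ZMod 2,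
      (∀ x, x ∉ Cl vs q G' → bs vs (Cl vs q G) b x = 0) → b ∈ PM vs (Cl vs q G'))
    (G : Finset V) (Λ P : Submodule (ZMod 2) (V → ZMod 2)) (hP : P ≤ Λ)
    (hPM : P ≤ PM vs (Cl vs q G)) :
    ∃ (E : Finset V) (P' : Submodule (ZMod 2) (V → ZMod 2)), P ≤ P' ∧ P' ≤ Λ ∧
      P' ≤ PM vs (Cl vs q (G ∪ E)) ∧
      E.card + τ * Module.finrank (ZMod 2) P ≤ τ * Module.finrank (ZMod 2) P' ∧
      ∀ b ∈ Λ, OO vs (Cl vs q (G ∪ E)) b = ∅ ∨ τ < (OO vs (Cl vs q (G ∪ E)) b).card := by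
  sorry

/-- EXT.  PROOF.  As `MP86d903.exists_ext` (Pool/Agent/Helper80/CP/Split.lean): `exists_split` with `A' = Z`,
`𝒮 = inside vs B \ inside vs Z`; its first hypothesis by `exists_unique_nbr` and `hSa` (`gg ≥ 1` means
`∑ |vs c \ Z| < 2 |N(S) \ Z|`; `|S| ≤ |inside vs B| ≤ q`), its second by `hSb`. -/
theorem pEXT {Z B : Finset V} {ρ : V → Bool} (hSa : SPa vs q Z) (hSb : SPb vs Z)
    (hB : (inside vs B).card ≤ q) (hρ : Valid vs ng ρ Z) :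
    ∃ σ : V → Bool, (∀ i ∈ Z, σ i = ρ i) ∧ Valid vs ng σ B ∧ Valid vs ng (flip Z σ) B := by
  sorry

/-- TRI.  The rules without division.  PROOF.  As `holds_clause`, `holds_lower`, `holds_upper`, `holds_comb`,
`holds_killed` in Pool/Agent/Helper80/CP/Fam.lean, Kill.lean; a state is `Z = Cl vs q (T₁ ∪ T) ∪ J` with `SPb vs Z`
(which replaces closedness in `holds_clause`: a clause not inside `Z` has two variables outside `Z`),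
`Valid vs ng ρ Z` and `ρ = ρ₀` on `Cl vs q T₀ ⊆ Z` (`T₀ ⊆ T₁`, `Cl_mono`). -/
theorem pTRI {T₀ T₁ : Finset V} {ρ₀ : V → Bool} {w τ r : ℕ}
    {Λ : Submodule (ZMod 2) (V → ZMod 2)} (hT : T₀ ⊆ T₁) :
    ((∀ c, ng c ⊆ vs c) → ∀ (c : ι) (a : V → ℤ) (b : ℤ),
      (∀ i, a i = if i ∈ ng c then -1 else if i ∈ vs c then 1 else 0) →
      b = 1 - (ng c).card → Hd vs ng q T₀ T₁ ρ₀ w τ r Λ a b) ∧
    (∀ v, Hd vs ng q T₀ T₁ ρ₀ w τ r Λ (Pi.single v 1) 0) ∧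
    (∀ v, Hd vs ng q T₀ T₁ ρ₀ w τ r Λ (Pi.single v (-1)) (-1)) ∧
    (∀ (a a₁ a₂ : V → ℤ) (b b₁ b₂ : ℤ) (α β : ℕ), (∀ i, a i = α * a₁ i + β * a₂ i) →
      b = α * b₁ + β * b₂ → Hd vs ng q T₀ T₁ ρ₀ w τ r Λ a₁ b₁ →
      Hd vs ng q T₀ T₁ ρ₀ w τ r Λ a₂ b₂ → Hd vs ng q T₀ T₁ ρ₀ w τ r Λ a b) ∧
    ∀ (a : V → ℤ) (b : ℤ) (H : Finset V), H ⊆ Cl vs q T₀ → (∀ i ∈ H, ρ₀ i = decide (0 < a i)) →
      b + ∑ i, max (-(a i)) 0 ≤ ∑ i ∈ H, |a i| → Hd vs ng q T₀ T₁ ρ₀ w τ r Λ a b := by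
  sorry

/-- NAR (division with a conclusion of small support).  PROOF.  Let `(Z, ρ)` be a state, `Z = Cl(T₁ ∪ T) ∪ J`, `W` the
support of `a'`.  `hNXT` for `G = T₁ ∪ W`, `P = ⊥` gives `E, J', P'` with `NX`; `Z' = Cl(T₁ ∪ W ∪ E) ∪ J'`.  Let
`B = Cl(T₁ ∪ T ∪ J ∪ W ∪ E ∪ J') ⊇ Z ∪ Z'`; `|T₁ ∪ T ∪ J ∪ W ∪ E ∪ J'| ≤ M` (`|T| ≤ w + τ r + 2 r r` as
`finrank P, finrank Λ ≤ r`; `|J|, |J'| ≤ 2 r`; `|W| ≤ w`; `|E| ≤ τ r`), so `|inside B| ≤ q`.  `hEXT`: `σ` extends `ρ` from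
`Z`, `σ` and `flip Z σ` are valid on `B`, hence on `Z'`.  `(Z', σ)` and `(Z', flip Z σ)` are states (`T := W ∪ E`,
`|W ∪ E| ≤ w + τ finrank P'`; both agree with `ρ` on `Z ⊇ Cl T₀`).  All variables of `W` have the values `0` or `2` at
`pt Z' σ`, so `∑ a' pt = 2 k` with an integer `k`, and `2 b ≤ ∑ a pt = c 2 k`, `b / c ≤ k`, `b' ≤ k`; the same for
`flip Z σ`.  For `i ∈ W`: `pt Z' σ i + pt Z' (flip Z σ) i = 2 pt Z ρ i` (`i ∈ Z'`; for `i ∈ Z` both are `pt Z ρ i`, for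
`i ∉ Z` the sum is `2`).  Add the two inequalities.  (Compare `MP86d903.holds_narrow`.) -/
theorem pNAR {T₀ T₁ : Finset V} {ρ₀ : V → Bool} {w τ r M : ℕ}
    {Λ : Submodule (ZMod 2) (V → ZMod 2)} (hT : T₀ ⊆ T₁) (hΛ : Module.finrank (ZMod 2) Λ ≤ r)
    (hI : ∀ T : Finset V, T.card ≤ M → (inside vs (Cl vs q T)).card ≤ q)
    (hM : T₁.card + 2 * w + 2 * (τ * r) + 2 * (r * r) + 4 * r ≤ M)
    (hNXT : ∀ (G : Finset V) (P : Submodule (ZMod 2) (V → ZMod 2)), T₁ ⊆ G → P ≤ Λ →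
      P ≤ PM vs (Cl vs q G) →
      ∃ (E J : Finset V) (P' : Submodule (ZMod 2) (V → ZMod 2)), NX vs q τ r G Λ P E J P')
    (hEXT : ∀ (Z B : Finset V) (ρ : V → Bool), SPa vs q Z → SPb vs Z → (inside vs B).card ≤ q →
      Valid vs ng ρ Z →
      ∃ σ : V → Bool, (∀ i ∈ Z, σ i = ρ i) ∧ Valid vs ng σ B ∧ Valid vs ng (flip Z σ) B)
    {a a' : V → ℤ} {b b' : ℤ} {c : ℕ} (hc : 1 ≤ c) (ha : ∀ i, a i = c * a' i)
    (hb : b' = ⌈(b : ℚ) / c⌉) (hsupp : (univ.filter (fun i => a' i ≠ 0)).card ≤ w)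
    (hH : Hd vs ng q T₀ T₁ ρ₀ w τ r Λ a b) : Hd vs ng q T₀ T₁ ρ₀ w τ r Λ a' b' := by
  sorry

/-- COR (division with a new direction).  PROOF.  Let `(Z, ρ)` be a state for `Λ`, `Z = Cl(T₁ ∪ T) ∪ J` with `P`, and suppose
`v = ∑ a' pt Z ρ < 2 b'`.  `2 b ≤ ∑ a pt Z ρ = c v` (`hH`).  (1) `v` is odd: if `v = 2 k` then `b ≤ c k`, `b / c ≤ k`,
`b' ≤ k`, contradiction.  (2) `v = ∑ a' pt` is congruent to `∑_{Zᶜ} a'` modulo `2` (`sum_pt_eq` in Fam.lean), so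
`vv a' ∉ Λ` (the vectors of `Λ` are even outside `Z`), and `Λ' = Λ ⊔ span {vv a'}` has `finrank Λ' = finrank Λ + 1`.
(3) `hNXT` for `G = T₁ ∪ (T ∪ J)` and `P` (`P ≤ Λ ≤ Λ'`; `P ≤ PM(Cl G)` by `hPMm`) gives `E, J', P'`;
`Z₁ = Cl(G ∪ E) ∪ J' ⊇ Z`.  `B = Cl(G ∪ E ∪ J') ⊇ Z₁`, `|G ∪ E ∪ J'| ≤ M`.  `hEXT`: `σ` extends `ρ` from `Z`; `σ` and
`flip Z σ` are valid on `B`, so on `Z₁`.  Both `(Z₁, σ)` and `(Z₁, flip Z σ)` are states for `Λ'` with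
`T := T ∪ J ∪ E` and `P'`: `|T ∪ J ∪ E| ≤ |T| + 2 r + |E| ≤ w + τ finrank P' + 2 r finrank Λ'`.
(4) `pt Z₁ σ + pt Z₁ (flip Z σ) = 2 pt Z ρ` (`pt_add_pt_flip`), so one of the two, say `x`, has `∑ a' x ≤ v`; this sum
is even because `vv a' ∈ Λ'` is even outside `Z₁`; so `∑ a' x = 2 k`, and `hH'` gives `2 b ≤ c 2 k`, `b' ≤ k`,
`2 b' ≤ 2 k ≤ v < 2 b'`, contradiction. -/
theorem pCOR {T₀ T₁ : Finset V} {ρ₀ : V → Bool} {w τ r M : ℕ}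
    {Λ : Submodule (ZMod 2) (V → ZMod 2)} (hT : T₀ ⊆ T₁)
    (hI : ∀ T : Finset V, T.card ≤ M → (inside vs (Cl vs q T)).card ≤ q)
    (hM : T₁.card + 2 * w + 2 * (τ * r) + 2 * (r * r) + 4 * r ≤ M)
    {a a' : V → ℤ} {b b' : ℤ} {c : ℕ} (hc : 1 ≤ c) (ha : ∀ i, a i = c * a' i)
    (hb : b' = ⌈(b : ℚ) / c⌉)
    (hΛ : Module.finrank (ZMod 2) (Λ ⊔ Submodule.span (ZMod 2) {vv a'} :
      Submodule (ZMod 2) (V → ZMod 2)) ≤ r)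
    (hPMm : ∀ G G' : Finset V, G ⊆ G' → PM vs (Cl vs q G) ≤ PM vs (Cl vs q G'))
    (hNXT : ∀ (G : Finset V) (P : Submodule (ZMod 2) (V → ZMod 2)), T₁ ⊆ G →
      P ≤ Λ ⊔ Submodule.span (ZMod 2) {vv a'} → P ≤ PM vs (Cl vs q G) →
      ∃ (E J : Finset V) (P' : Submodule (ZMod 2) (V → ZMod 2)),
        NX vs q τ r G (Λ ⊔ Submodule.span (ZMod 2) {vv a'}) P E J P')
    (hEXT : ∀ (Z B : Finset V) (ρ : V → Bool), SPa vs q Z → SPb vs Z → (inside vs B).card ≤ q →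
      Valid vs ng ρ Z →
      ∃ σ : V → Bool, (∀ i ∈ Z, σ i = ρ i) ∧ Valid vs ng σ B ∧ Valid vs ng (flip Z σ) B)
    (hH : Hd vs ng q T₀ T₁ ρ₀ w τ r Λ a b)
    (hH' : Hd vs ng q T₀ T₁ ρ₀ w τ r (Λ ⊔ Submodule.span (ZMod 2) {vv a'}) a b) :
    Hd vs ng q T₀ T₁ ρ₀ w τ r Λ a' b' := by
  sorry

/-- DEG.  PROOF.  Double counting: `∑_x |{c : x ∈ vs c}| = ∑_c |vs c| = 3 |ι|`. -/
theorem pDEG (h3 : ∀ c, (vs c).card = 3) (D : ℕ) :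
    (D + 1) * (univ.filter (fun x : V => D < (univ.filter (fun c => x ∈ vs c)).card)).card ≤
      3 * Fintype.card ι := by
  sorry

/-- NUM.  PROOF.  As `MP86d903.numeric` in Pool/Agent/Results/MP_86d903_lc/HeavyRounding.lean:
`ε = min (min (ρ / 200) (η / 400)) (1 / 4)`, `D = ⌈6 Δ / ε⌉`, `C = 160 + 24 D`, `δ = min (ε ^ 2 / 2400) (√(ε / (2 C)))`
(positive; so `δ ^ 2 ≤ ε / (2 C)`), `w = ⌈ε n⌉`, `t₀ = w / 74`, `s = ⌈δ n⌉`, `k = ⌊3 Δ n / (D + 1)⌋ ≤ ε n / 2`,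
`r = ⌊δ √n⌋`, so `r * r ≤ ε n / (2 C)`; `M = t₀ + k + 2 w + 2 τ r + 2 r r + 4 r` with `τ = (76 + 12 D) r`:
`M ≤ ε n / 74 + ε n / 2 + 2 ε n + C r r + 4 r + 3 ≤ 5 ε n` for large `n` (`4 r ≤ 4 δ √n`, and `√n = o(n)`).  Also
`18 r + 10 ≤ 22 M` (since `4 r ≤ M` and `M ≥ 2 w ≥ 2`). -/
theorem pNUM {ρ η Δ : ℝ} (hρ : 0 < ρ) (hη : 0 < η) (hΔ : 0 < Δ) :
    ∃ (ε δ : ℝ) (D : ℕ), 0 < ε ∧ 0 < δ ∧ ∀ᶠ n : ℕ in Filter.atTop, ∃ w t₀ s k r M : ℕ,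
      34 * M ≤ ⌊ρ * n⌋₊ ∧
      t₀ + k + 2 * w + 2 * ((76 + 12 * D) * r * r) + 2 * (r * r) + 4 * r ≤ M ∧
      (37 * M : ℝ) ≤ η * n ∧ ε * n ≤ w ∧ (∀ j : ℕ, ε * n ≤ j → w ≤ j) ∧ 0 < δ * n ∧
      δ * n ≤ s ∧ 74 * t₀ ≤ w ∧ w ≤ n ∧ 18 * r + 10 ≤ 22 * M ∧
      (∀ j : ℕ, (D + 1) * j ≤ 3 * ⌊Δ * n⌋₊ → j ≤ k) ∧ δ * √(n : ℝ) ≤ r + 1 ∧
      (2 : ℝ) ^ (δ * n) * (1 - w / (8 * n)) ^ t₀ * 2 ^ s < 2 := by
  sorry

end Pool.Agent.Helper82.RD
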